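import Pool.Agent.Q39.TI.Fourier

/-!
# The size of Bohr sets
-/

set_option autoImplicit false
set_option linter.unusedSectionVars false

open Finset

namespace Pool.Agent.Q39.TI

variable {p : ℕ} [NeZero p]

/-- The Bohr set. -/
noncomputable def bohr (Γ : Finset (ZMod p)) (ρ : ℝ) : Finset (ZMod p) :=
  univ.filter fun x => ∀ ξ ∈ Γ, ‖(ZMod.stdAddChar (ξ * x) : ℂ) - 1‖ ≤ ρ

lemma norm_std_sub_one_le (x y : ZMod p) :
    ‖(ZMod.stdAddChar (x - y) : ℂ) - 1‖ ≤ 2 * Real.pi * |(x.val : ℝ) - y.val| / p := by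
  have h1 : x - y = (((x.val : ℤ) - (y.val : ℤ) : ℤ) : ZMod p) := by
    push_cast
    rw [ZMod.natCast_zmod_val, ZMod.natCast_zmod_val]
  rw [h1, ZMod.stdAddChar_coe]
  have h2 : 2 * (Real.pi : ℂ) * Complex.I * (((x.val : ℤ) - (y.val : ℤ) : ℤ) : ℂ) / p =
      Complex.I * ((2 * Real.pi * ((x.val : ℝ) - y.val) / p : ℝ) : ℂ) := by
    push_cast
    ring
  rw [h2]
  refine Real.norm_exp_I_mul_ofReal_sub_one_le.trans (le_of_eq ?_)
  rw [Real.norm_eq_abs, abs_div, abs_mul, abs_mul, abs_two, abs_of_pos Real.pi_pos,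
    Nat.abs_cast]

lemma card_bohr (Γ : Finset (ZMod p)) {M : ℕ} {ρ : ℝ} (hM : 0 < M)
    (h : 2 * Real.pi / M ≤ ρ) : p ≤ (bohr Γ ρ).card * M ^ Γ.card := by
  have hp : 0 < p := NeZero.pos p
  let f : ZMod p → (Γ → ℕ) := fun x ξ => M * (ξ.1 * x).val / p
  let t : Finset (Γ → ℕ) := Fintype.piFinset fun _ => range M
  have hf : ∀ x ∈ (univ : Finset (ZMod p)), f x ∈ t := by
    intro x _
    rw [Fintype.mem_piFinset]
    intro ξ
    rw [mem_range]
    apply Nat.div_lt_of_lt_mul
    rw [mul_comm p M]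
    exact Nat.mul_lt_mul_of_pos_left (ZMod.val_lt _) hM
  have ht : t.card = M ^ Γ.card := by
    rw [Fintype.card_piFinset]
    simp
  have h1 := card_le_mul_card_image_of_maps_to hf (bohr Γ ρ).card ?_
  · rw [ht, card_univ, ZMod.card] at h1
    exact h1
  intro c _
  rcases (univ.filter fun a => f a = c).eq_empty_or_nonempty with he | ⟨x₀, hx₀⟩
  · rw [he]; simp
  · rw [mem_filter] at hx₀
    apply card_le_card_of_injOn (fun x => x - x₀)
    · intro x hx
      rw [mem_coe, mem_filter] at hx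
      rw [mem_coe]
      unfold bohr
      rw [mem_filter]
      refine ⟨mem_univ _, fun ξ hξ => ?_⟩
      have h2 : M * (ξ * x).val / p = M * (ξ * x₀).val / p := by
        have := congrFun (hx.2.trans hx₀.2.symm) ⟨ξ, hξ⟩
        exact this
      rw [mul_sub]
      refine (norm_std_sub_one_le _ _).trans (le_trans ?_ h)
      have h3 : |((M * (ξ * x).val : ℕ) : ℝ) - ((M * (ξ * x₀).val : ℕ) : ℝ)| ≤ p := by
        have e1 := Nat.div_add_mod (M * (ξ * x).val) p
        have e2 := Nat.div_add_mod (M * (ξ * x₀).val) p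
        have e3 := Nat.mod_lt (M * (ξ * x).val) hp
        have e4 := Nat.mod_lt (M * (ξ * x₀).val) hp
        rw [h2] at e1
        have e5 : M * (ξ * x).val ≤ M * (ξ * x₀).val + p := by omega
        have e6 : M * (ξ * x₀).val ≤ M * (ξ * x).val + p := by omega
        have e5' : ((M * (ξ * x).val : ℕ) : ℝ) ≤ ((M * (ξ * x₀).val + p : ℕ) : ℝ) := by
          exact_mod_cast e5
        have e6' : ((M * (ξ * x₀).val : ℕ) : ℝ) ≤ ((M * (ξ * x).val + p : ℕ) : ℝ) := by
          exact_mod_cast e6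
        rw [abs_le]
        push_cast at e5' e6' ⊢
        constructor <;> linarith
      have hM' : (0 : ℝ) < M := by exact_mod_cast hM
      have hp' : (0 : ℝ) < p := by exact_mod_cast hp
      push_cast at h3
      rw [← mul_sub, abs_mul, Nat.abs_cast] at h3
      rw [div_le_div_iff₀ hp' hM']
      have hpi := Real.pi_pos
      nlinarith
    · intro x _ y _ hxy
      exact sub_left_injective hxy

end Pool.Agent.Q39.TI
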