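import Mathlib

/-!
# `t`-independent sets in cyclic groups: definitions
-/

set_option autoImplicit false

namespace Pool.Agent.Q39.TI

/-- The set `A ⊆ ℤ/n` is `t`-independent: `0` is not a signed sum of at least one and at most `t`
elements of `A` (repetitions allowed). The integer `c x` is the coefficient of `x ∈ A`. -/
def IsTIndep {n : ℕ} (t : ℕ) (A : Finset (ZMod n)) : Prop :=
  ∀ c : ZMod n → ℤ, 1 ≤ ∑ x ∈ A, |c x| → ∑ x ∈ A, |c x| ≤ t → ∑ x ∈ A, (c x : ZMod n) * x ≠ 0

/-- The maximum size of a `t`-independent subset of `ℤ/n`. -/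
noncomputable def tau (n t : ℕ) : ℕ :=
  sSup {m | ∃ A : Finset (ZMod n), A.card = m ∧ IsTIndep t A}

end Pool.Agent.Q39.TI
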