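import Pool.Agent.Q39.TI.Pollard

/-!
# Convolutions and Fourier coefficients on a finite cyclic group
-/

set_option autoImplicit false
set_option linter.unusedSectionVars false

open Finset

namespace Pool.Agent.Q39.TI

variable {p : ℕ} [NeZero p]

/-- Convolution. -/
noncomputable def conv (f g : ZMod p → ℝ) (x : ZMod p) : ℝ := ∑ y, f y * g (x - y)

/-- Fourier coefficients. -/
noncomputable def hat (f : ZMod p → ℝ) (ξ : ZMod p) : ℂ :=
  ∑ x, (f x : ℂ) * ZMod.stdAddChar (ξ * x)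

/-- The indicator function of a set. -/
noncomputable def ind (A : Finset (ZMod p)) (x : ZMod p) : ℝ := if x ∈ A then 1 else 0

lemma hat_conv (f g : ZMod p → ℝ) (ξ : ZMod p) : hat (conv f g) ξ = hat f ξ * hat g ξ := by
  unfold hat conv
  rw [sum_mul_sum]
  have h1 : ∀ x : ZMod p, ((∑ y, f y * g (x - y) : ℝ) : ℂ) * ZMod.stdAddChar (ξ * x) =
      ∑ y, (f y : ℂ) * g (x - y) * ZMod.stdAddChar (ξ * x) := by
    intro x
    push_cast
    rw [sum_mul]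
  simp only [h1]
  rw [sum_comm]
  apply sum_congr rfl
  intro y _
  rw [← Equiv.sum_comp (Equiv.addRight y)]
  apply sum_congr rfl
  intro x _
  simp only [Equiv.coe_addRight, add_sub_cancel_right]
  rw [mul_add, AddChar.map_add_eq_mul]
  ring

lemma sum_hat (f : ZMod p → ℝ) : ∑ ξ, hat f ξ = p * f 0 := by
  unfold hat
  rw [sum_comm]
  have h1 : ∀ x : ZMod p, ∑ ξ, (f x : ℂ) * ZMod.stdAddChar (ξ * x) =
      if x = 0 then (p : ℂ) * f 0 else 0 := by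
    intro x
    rw [← mul_sum, AddChar.sum_mulShift x (ZMod.isPrimitive_stdAddChar p), ZMod.card]
    split_ifs with h
    · rw [h, mul_comm]
    · simp
  simp only [h1]
  simp

lemma sum_conv (f g : ZMod p → ℝ) : ∑ x, conv f g x = (∑ x, f x) * ∑ x, g x := by
  unfold conv
  rw [sum_comm, sum_mul]
  apply sum_congr rfl
  intro y _
  rw [← mul_sum]
  congr 1
  have h := Equiv.sum_comp (Equiv.subRight y) g
  simpa only [Equiv.subRight_apply] using h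

lemma conv_ind (A B : Finset (ZMod p)) (x : ZMod p) : conv (ind A) (ind B) x = rep A B x := by
  rw [rep_eq_sum]
  unfold conv ind
  push_cast
  rfl

lemma conv_mono {f f' g g' : ZMod p → ℝ} (hf : ∀ x, 0 ≤ f x) (hff : ∀ x, f x ≤ f' x)
    (hg : ∀ x, 0 ≤ g x) (hgg : ∀ x, g x ≤ g' x) (x : ZMod p) : conv f g x ≤ conv f' g' x := by
  apply sum_le_sum
  intro y _
  exact mul_le_mul (hff y) (hgg _) (hg _) ((hf y).trans (hff y))

lemma conv_smul (a b : ℝ) (f g : ZMod p → ℝ) (x : ZMod p) :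
    conv (fun y => a * f y) (fun y => b * g y) x = a * b * conv f g x := by
  unfold conv
  rw [mul_sum]
  apply sum_congr rfl
  intro y _
  ring

lemma conv_nonneg {f g : ZMod p → ℝ} (hf : ∀ x, 0 ≤ f x) (hg : ∀ x, 0 ≤ g x) (x : ZMod p) :
    0 ≤ conv f g x :=
  sum_nonneg fun y _ => mul_nonneg (hf y) (hg _)

lemma ind_nonneg (A : Finset (ZMod p)) (x : ZMod p) : 0 ≤ ind A x := by
  unfold ind; split_ifs <;> norm_num

lemma sum_ind (A : Finset (ZMod p)) : ∑ x, ind A x = A.card := by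
  unfold ind; simp

lemma hat_ind (A : Finset (ZMod p)) (ξ : ZMod p) :
    hat (ind A) ξ = ∑ a ∈ A, ZMod.stdAddChar (ξ * a) := by
  unfold hat ind
  rw [← sum_filter_add_sum_filter_not univ (fun a => a ∈ A)]
  have h1 : ∑ x ∈ univ.filter (fun a => ¬ a ∈ A),
      (((if x ∈ A then (1 : ℝ) else 0) : ℝ) : ℂ) * ZMod.stdAddChar (ξ * x) = 0 := by
    apply sum_eq_zero
    intro a ha
    rw [mem_filter] at ha
    rw [if_neg ha.2]; simp
  rw [h1, add_zero, filter_mem_eq_inter, univ_inter]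
  apply sum_congr rfl
  intro a ha
  rw [if_pos ha]; simp

lemma norm_std (x : ZMod p) : ‖(ZMod.stdAddChar x : ℂ)‖ = 1 := AddChar.norm_apply _ _

lemma norm_hat_ind_le (A : Finset (ZMod p)) (ξ : ZMod p) : ‖hat (ind A) ξ‖ ≤ A.card := by
  rw [hat_ind]
  refine (norm_sum_le _ _).trans ?_
  simp [norm_std]

/-- Two-, three-, four- and fivefold convolutions. -/
noncomputable def c2 (f : ZMod p → ℝ) : ZMod p → ℝ := conv f f
noncomputable def c3 (f : ZMod p → ℝ) : ZMod p → ℝ := conv (c2 f) f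
noncomputable def c4 (f : ZMod p → ℝ) : ZMod p → ℝ := conv (c2 f) (c2 f)
noncomputable def c5 (f : ZMod p → ℝ) : ZMod p → ℝ := conv (c3 f) (c2 f)

lemma hat_c4 (f : ZMod p → ℝ) (ξ : ZMod p) : hat (c4 f) ξ = hat f ξ ^ 4 := by
  unfold c4 c2
  rw [hat_conv, hat_conv]; ring

lemma hat_c5 (f : ZMod p → ℝ) (ξ : ZMod p) : hat (c5 f) ξ = hat f ξ ^ 5 := by
  unfold c5 c3 c2
  rw [hat_conv, hat_conv, hat_conv]; ring

lemma hat_even {f : ZMod p → ℝ} (hf : ∀ x, f (-x) = f x) (ξ : ZMod p) :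
    (starRingEnd ℂ) (hat f ξ) = hat f ξ := by
  unfold hat
  rw [map_sum]
  rw [← Equiv.sum_comp (Equiv.neg (ZMod p))]
  apply sum_congr rfl
  intro x _
  simp only [Equiv.neg_apply, map_mul, Complex.conj_ofReal]
  rw [hf, ← AddChar.map_neg_eq_conj]
  congr 2
  ring

lemma norm_pow_four {f : ZMod p → ℝ} (hf : ∀ x, f (-x) = f x) (ξ : ZMod p) :
    ((‖hat f ξ‖ ^ 4 : ℝ) : ℂ) = hat f ξ ^ 4 := by
  have h := Complex.mul_conj (hat f ξ)
  rw [hat_even hf, Complex.normSq_eq_norm_sq] at h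
  calc ((‖hat f ξ‖ ^ 4 : ℝ) : ℂ) = ((‖hat f ξ‖ ^ 2 : ℝ) : ℂ) ^ 2 := by push_cast; ring
    _ = (hat f ξ * hat f ξ) ^ 2 := by rw [h]
    _ = hat f ξ ^ 4 := by ring

lemma sum_norm_pow_four {f : ZMod p → ℝ} (hf : ∀ x, f (-x) = f x) :
    ∑ ξ, ‖hat f ξ‖ ^ 4 = p * c4 f 0 := by
  have h := sum_hat (c4 f)
  simp only [hat_c4] at h
  have h2 : ((∑ ξ, ‖hat f ξ‖ ^ 4 : ℝ) : ℂ) = ((p * c4 f 0 : ℝ) : ℂ) := by
    rw [Complex.ofReal_sum]
    simp only [norm_pow_four hf]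
    rw [h]; push_cast; rfl
  exact_mod_cast h2

lemma norm_pow_five_sub {z w : ℂ} {b ρ : ℝ} (hz : ‖z‖ ≤ b) (hw : ‖w‖ ≤ b) (h : ‖z - w‖ ≤ ρ * b) :
    ‖z ^ 5 - w ^ 5‖ ≤ 5 * ρ * b ^ 5 := by
  have hb : 0 ≤ b := (norm_nonneg z).trans hz
  have h1 : z ^ 5 - w ^ 5 = (z - w) * (z ^ 4 + z ^ 3 * w + z ^ 2 * w ^ 2 + z * w ^ 3 + w ^ 4) := by
    ring
  rw [h1, norm_mul]
  have h2 : ‖z ^ 4 + z ^ 3 * w + z ^ 2 * w ^ 2 + z * w ^ 3 + w ^ 4‖ ≤ 5 * b ^ 4 := by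
    have e1 : ‖z ^ 4‖ ≤ b ^ 4 := by rw [norm_pow]; gcongr
    have e2 : ‖z ^ 3 * w‖ ≤ b ^ 4 := by
      rw [norm_mul, norm_pow, show b ^ 4 = b ^ 3 * b by ring]; gcongr
    have e3 : ‖z ^ 2 * w ^ 2‖ ≤ b ^ 4 := by
      rw [norm_mul, norm_pow, norm_pow, show b ^ 4 = b ^ 2 * b ^ 2 by ring]; gcongr
    have e4 : ‖z * w ^ 3‖ ≤ b ^ 4 := by
      rw [norm_mul, norm_pow, show b ^ 4 = b * b ^ 3 by ring]; gcongr
    have e5 : ‖w ^ 4‖ ≤ b ^ 4 := by rw [norm_pow]; gcongr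
    refine (norm_add_le _ _).trans ?_
    refine (add_le_add (norm_add_le _ _) le_rfl).trans ?_
    have e6 := norm_add_le (z ^ 4 + z ^ 3 * w) (z ^ 2 * w ^ 2)
    have e7 := norm_add_le (z ^ 4) (z ^ 3 * w)
    linarith
  calc ‖z - w‖ * ‖z ^ 4 + z ^ 3 * w + z ^ 2 * w ^ 2 + z * w ^ 3 + w ^ 4‖
      ≤ (ρ * b) * (5 * b ^ 4) := by
        apply mul_le_mul h h2 (norm_nonneg _) ((norm_nonneg _).trans h)
    _ = 5 * ρ * b ^ 5 := by ring

/-- The comparison of the number of solutions of `x₁ + ... + x₅ = 0` for `S` and for the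
convolution of `S` with a Bohr set. -/
lemma c5_le {S B : Finset (ZMod p)} {ε ρ : ℝ} (hε : 0 ≤ ε) (hρ : 0 ≤ ρ)
    (hS : ∀ x, -x ∈ S ↔ x ∈ S) (h5 : c5 (ind S) 0 = 0)
    (hB : ∀ ξ, ε * S.card ≤ ‖hat (ind S) ξ‖ → ∀ b ∈ B, ‖(ZMod.stdAddChar (ξ * b) : ℂ) - 1‖ ≤ ρ) :
    c5 (conv (ind S) (ind B)) 0 ≤
      (2 * ε + 5 * ρ) * S.card * B.card ^ 5 * c4 (ind S) 0 := by
  have heven : ∀ x, ind S (-x) = ind S x := by
    intro x; unfold ind; simp only [hS]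
  set F := hat (ind S) with hF
  set G := hat (ind B) with hG
  have h1 : ∑ ξ, F ξ ^ 5 = 0 := by
    have := sum_hat (c5 (ind S))
    simp only [hat_c5] at this
    rw [this, h5]; simp
  have h2 : ∑ ξ, F ξ ^ 5 * (G ξ ^ 5 - (B.card : ℂ) ^ 5) =
      p * c5 (conv (ind S) (ind B)) 0 := by
    have := sum_hat (c5 (conv (ind S) (ind B)))
    simp only [hat_c5, hat_conv] at this
    rw [← this]
    simp only [mul_sub, sum_sub_distrib, ← sum_mul, h1, zero_mul, sub_zero]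
    apply sum_congr rfl
    intro ξ _
    ring
  have h3 : ∀ ξ, ‖F ξ ^ 5 * (G ξ ^ 5 - (B.card : ℂ) ^ 5)‖ ≤
      ‖F ξ‖ ^ 4 * ((2 * ε + 5 * ρ) * S.card * B.card ^ 5) := by
    intro ξ
    rw [norm_mul, norm_pow, show ‖F ξ‖ ^ 5 = ‖F ξ‖ ^ 4 * ‖F ξ‖ by ring, mul_assoc]
    apply mul_le_mul_of_nonneg_left _ (by positivity)
    have hFS : ‖F ξ‖ ≤ S.card := norm_hat_ind_le _ _
    have hGB : ‖G ξ‖ ≤ B.card := norm_hat_ind_le _ _
    have hBB : ‖(B.card : ℂ)‖ ≤ B.card := by simp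
    by_cases hξ : ε * S.card ≤ ‖F ξ‖
    · have h4 : ‖G ξ - B.card‖ ≤ ρ * B.card := by
        rw [hG, hat_ind, show ((B.card : ℂ)) = ∑ b ∈ B, (1 : ℂ) by simp, ← sum_sub_distrib]
        refine (norm_sum_le _ _).trans ?_
        refine (sum_le_sum fun b hb => hB ξ hξ b hb).trans ?_
        simp [mul_comm]
      have h5 := norm_pow_five_sub hGB hBB h4
      calc ‖F ξ‖ * ‖G ξ ^ 5 - (B.card : ℂ) ^ 5‖ ≤ S.card * (5 * ρ * B.card ^ 5) :=
            mul_le_mul hFS h5 (norm_nonneg _) (by positivity)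
        _ ≤ (2 * ε + 5 * ρ) * S.card * B.card ^ 5 := by
            have : (0 : ℝ) ≤ 2 * ε * (S.card * B.card ^ 5) := by positivity
            nlinarith
    · push Not at hξ
      have h4 : ‖G ξ ^ 5 - (B.card : ℂ) ^ 5‖ ≤ 2 * B.card ^ 5 := by
        refine (norm_sub_le _ _).trans ?_
        rw [norm_pow, norm_pow]
        have e1 : ‖G ξ‖ ^ 5 ≤ (B.card : ℝ) ^ 5 := by gcongr
        have e2 : ‖(B.card : ℂ)‖ ^ 5 ≤ (B.card : ℝ) ^ 5 := by gcongr
        linarith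
      calc ‖F ξ‖ * ‖G ξ ^ 5 - (B.card : ℂ) ^ 5‖ ≤ (ε * S.card) * (2 * B.card ^ 5) :=
            mul_le_mul hξ.le h4 (norm_nonneg _) (by positivity)
        _ ≤ (2 * ε + 5 * ρ) * S.card * B.card ^ 5 := by
            have : (0 : ℝ) ≤ 5 * ρ * (S.card * B.card ^ 5) := by positivity
            nlinarith
  have hp : (0 : ℝ) < p := by
    have := NeZero.pos p
    exact_mod_cast this
  have h4 : p * c5 (conv (ind S) (ind B)) 0 ≤
      p * ((2 * ε + 5 * ρ) * S.card * B.card ^ 5 * c4 (ind S) 0) := by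
    have h5 : 0 ≤ c5 (conv (ind S) (ind B)) 0 := by
      have e1 : ∀ x, 0 ≤ conv (ind S) (ind B) x := conv_nonneg (ind_nonneg _) (ind_nonneg _)
      have e2 : ∀ x, 0 ≤ c2 (conv (ind S) (ind B)) x := conv_nonneg e1 e1
      exact conv_nonneg (conv_nonneg e2 e1) e2 0
    have h6 : ‖((p : ℂ) * c5 (conv (ind S) (ind B)) 0)‖ = p * c5 (conv (ind S) (ind B)) 0 := by
      rw [norm_mul, Complex.norm_natCast, Complex.norm_real, Real.norm_of_nonneg h5]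
    rw [← h6, ← h2]
    refine (norm_sum_le _ _).trans ?_
    refine (sum_le_sum fun ξ _ => h3 ξ).trans ?_
    rw [← sum_mul, sum_norm_pow_four heven]
    apply le_of_eq
    ring
  exact le_of_mul_le_mul_left h4 hp

end Pool.Agent.Q39.TI
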