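import Pool.Agent.Q39.TI.Defs

/-!
# Large `5`-independent sets in `ℤ/2(4^s+1)`
-/

set_option autoImplicit false
set_option linter.unusedSectionVars false

open Finset Polynomial

namespace Pool.Agent.Q39.TI

section Curve

variable {K Ω : Type*} [Field K] [Fintype K] [CharP K 2] [Field Ω] [CharP Ω 2] [Algebra K Ω]

/-- The polynomial `∏ (X + t)^{λ(t)⁺} (X + t + 1)^{λ(t)⁻}`. -/
noncomputable def fpoly (R : Finset K) (l : K → ℤ) : K[X] :=
  ∏ t ∈ R, (X + C t) ^ (l t).toNat * (X + C (t + 1)) ^ (-l t).toNat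

lemma fpoly_monic (R : Finset K) (l : K → ℤ) : (fpoly R l).Monic := by
  unfold fpoly
  apply monic_prod_of_monic
  intro t _
  exact ((monic_X_add_C t).pow _).mul ((monic_X_add_C _).pow _)

lemma fpoly_natDegree (R : Finset K) (l : K → ℤ) :
    ((fpoly R l).natDegree : ℤ) = ∑ t ∈ R, |l t| := by
  unfold fpoly
  rw [natDegree_prod_of_monic]
  · push_cast
    apply sum_congr rfl
    intro t _
    rw [((monic_X_add_C t).pow _).natDegree_mul ((monic_X_add_C _).pow _),
      (monic_X_add_C t).natDegree_pow, (monic_X_add_C (t + 1)).natDegree_pow,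
      natDegree_X_add_C, natDegree_X_add_C]
    rcases le_total 0 (l t) with h | h
    · rw [abs_of_nonneg h]; omega
    · rw [abs_of_nonpos h]; omega
  · intro t _
    exact ((monic_X_add_C t).pow _).mul ((monic_X_add_C _).pow _)

lemma aeval_fpoly (R : Finset K) (l : K → ℤ) (x : Ω) : aeval x (fpoly R l) =
    ∏ t ∈ R, (x + algebraMap K Ω t) ^ (l t).toNat * (x + algebraMap K Ω t + 1) ^ (-l t).toNat := by
  unfold fpoly
  rw [map_prod]
  apply prod_congr rfl
  intro t _
  simp only [map_mul, map_pow, map_add, aeval_X, aeval_C, map_one]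
  rw [add_assoc]

lemma zpow_split {x y : Ω} (hx : x ≠ 0) (hy : y ≠ 0) (l : ℤ) :
    (x / y) ^ l * (y ^ l.toNat * x ^ (-l).toNat) = x ^ l.toNat * y ^ (-l).toNat := by
  rcases le_total 0 l with h | h
  · lift l to ℕ using h
    have h1 : (-(l : ℤ)).toNat = 0 := by omega
    rw [h1, Int.toNat_natCast, zpow_natCast, div_pow]
    field_simp
  · obtain ⟨m, rfl⟩ : ∃ m : ℕ, l = -m := ⟨(-l).toNat, by omega⟩
    have h1 : (-(m : ℤ)).toNat = 0 := by omega
    rw [h1, neg_neg, Int.toNat_natCast, zpow_neg, zpow_natCast, div_pow]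
    field_simp

lemma aeval_pow_card (g : K[X]) (x : Ω) :
    aeval (x ^ Fintype.card K) g = (aeval x g) ^ Fintype.card K := by
  rw [← expand_aeval, FiniteField.expand_card, map_pow]

lemma algebraMap_pow_card (t : K) : algebraMap K Ω t ^ Fintype.card K = algebraMap K Ω t := by
  rw [← map_pow, FiniteField.pow_card]

lemma one_add_one : (1 : Ω) + 1 = 0 := CharTwo.add_self_eq_zero 1

lemma add_one_add_one (x : Ω) : x + 1 + 1 = x := by
  rw [add_assoc, one_add_one, add_zero]

variable {s : ℕ} (hq : Fintype.card K = 2 ^ s)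

include hq in
lemma add_pow_q (x y : Ω) : (x + y) ^ Fintype.card K = x ^ Fintype.card K + y ^ Fintype.card K := by
  rw [hq]; exact add_pow_char_pow x y 2 s

variable {θ : Ω} (hθ : (θ ^ Fintype.card K) ^ Fintype.card K = θ + 1)

include hθ in
lemma theta_add_ne (t : K) : θ + algebraMap K Ω t ≠ 0 := by
  intro h
  have h1 : θ = algebraMap K Ω t := by
    have := eq_neg_of_add_eq_zero_left h
    rwa [CharTwo.neg_eq] at this
  rw [h1, algebraMap_pow_card, algebraMap_pow_card] at hθ
  have h2 : (0 : Ω) = 1 := by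
    have : algebraMap K Ω t + 0 = algebraMap K Ω t + 1 := by rw [add_zero]; exact hθ
    exact add_left_cancel this
  exact zero_ne_one h2

include hθ in
lemma theta_add_one_ne (t : K) : θ + algebraMap K Ω t + 1 ≠ 0 := by
  have := theta_add_ne hθ (t + 1)
  rwa [map_add, map_one, ← add_assoc] at this

include hq hθ in
lemma theta_q_ne : θ ^ Fintype.card K ≠ θ := by
  intro h
  rw [h, h] at hθ
  have : θ + 0 = θ + 1 := by rw [add_zero]; exact hθ
  exact zero_ne_one (add_left_cancel this)

include hq hθ in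
lemma theta_q_ne' : θ ^ Fintype.card K ≠ θ + 1 := by
  intro h
  rw [h, add_pow_q hq, one_pow, h, add_one_add_one] at hθ
  have : θ + 0 = θ + 1 := by rw [add_zero]; exact hθ
  exact zero_ne_one (add_left_cancel this)

include hq hθ in
/-- A polynomial over `K` of degree at most three that vanishes at `θ` is zero. -/
lemma eq_zero_of_root {g : K[X]} (hg : aeval θ g = 0) (hd : g.natDegree < 4) : g = 0 := by
  classical
  set q := Fintype.card K with hqq
  have hq0 : q ≠ 0 := by rw [hq]; positivity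
  have h1 : aeval (θ ^ q) g = 0 := by rw [aeval_pow_card, hg, zero_pow hq0]
  have h2 : aeval (θ + 1) g = 0 := by rw [← hθ, aeval_pow_card, h1, zero_pow hq0]
  have h3 : aeval (θ ^ q + 1) g = 0 := by
    have : (θ + 1) ^ q = θ ^ q + 1 := by rw [add_pow_q hq, one_pow]
    rw [← this, aeval_pow_card, h2, zero_pow hq0]
  have hne : ∀ x : Ω, x ≠ x + 1 := by
    intro x h
    have : x + 0 = x + 1 := by rw [add_zero]; exact h
    exact zero_ne_one (add_left_cancel this)
  have n1 := theta_q_ne hq hθ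
  have n2 := theta_q_ne' hq hθ
  have hcard : ({θ, θ ^ q, θ + 1, θ ^ q + 1} : Finset Ω).card = 4 := by
    rw [card_insert_of_notMem, card_insert_of_notMem, card_insert_of_notMem, card_singleton]
    · rw [mem_singleton]
      intro h
      exact n1 (add_right_cancel h).symm
    · simp only [mem_insert, mem_singleton, not_or]
      exact ⟨n2, hne _⟩
    · simp only [mem_insert, mem_singleton, not_or]
      refine ⟨n1.symm, hne _, ?_⟩
      intro h
      apply n2
      rw [← hqq]
      nth_rewrite 2 [h]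
      rw [add_one_add_one]
  have h4 : g.map (algebraMap K Ω) = 0 := by
    apply eq_zero_of_natDegree_lt_card_of_eval_eq_zero' _ ({θ, θ ^ q, θ + 1, θ ^ q + 1} : Finset Ω)
    · intro x hx
      simp only [mem_insert, mem_singleton] at hx
      rw [eval_map_algebraMap]
      rcases hx with rfl | rfl | rfl | rfl
      · exact hg
      · exact h1
      · exact h2
      · exact h3
    · rw [hcard]
      exact lt_of_le_of_lt natDegree_map_le hd
  exact (Polynomial.map_eq_zero _).1 h4

include hq hθ in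
/-- The key independence property. -/
lemma prod_ne_one {R : Finset K} (hR : ∀ t ∈ R, t + 1 ∉ R) {l : K → ℤ}
    (h1 : 1 ≤ ∑ t ∈ R, |l t|) (h4 : ∑ t ∈ R, |l t| ≤ 4) :
    ∏ t ∈ R, ((θ + algebraMap K Ω t) / (θ + algebraMap K Ω t + 1)) ^ l t ≠ 1 := by
  intro h
  set f := fpoly R l with hf
  have hfm : f.Monic := fpoly_monic R l
  have hfd : (f.natDegree : ℤ) = ∑ t ∈ R, |l t| := fpoly_natDegree R l
  have e1 : aeval θ f = aeval (θ + 1) f := by
    rw [hf, aeval_fpoly, aeval_fpoly]
    have e2 : ∏ t ∈ R, (θ + algebraMap K Ω t) ^ (l t).toNat *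
        (θ + algebraMap K Ω t + 1) ^ (-l t).toNat =
        (∏ t ∈ R, ((θ + algebraMap K Ω t) / (θ + algebraMap K Ω t + 1)) ^ l t) *
        ∏ t ∈ R, (θ + 1 + algebraMap K Ω t) ^ (l t).toNat *
          (θ + 1 + algebraMap K Ω t + 1) ^ (-l t).toNat := by
      rw [← prod_mul_distrib]
      apply prod_congr rfl
      intro t _
      have e3 : θ + 1 + algebraMap K Ω t = θ + algebraMap K Ω t + 1 := by ring
      rw [e3, add_one_add_one]
      exact (zpow_split (theta_add_ne hθ t) (theta_add_one_ne hθ t) (l t)).symm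
    rw [e2, h, one_mul]
  set g := f.comp (X + C 1) - f with hg
  have hg1 : aeval θ g = 0 := by
    rw [hg, map_sub, aeval_comp]
    simp only [map_add, aeval_X, map_one]
    rw [e1, sub_self]
  have hfc : (f.comp (X + C 1)).Monic := hfm.comp_X_add_C 1
  have hdeg : (f.comp (X + C 1)).natDegree = f.natDegree := by
    rw [natDegree_comp, natDegree_X_add_C, mul_one]
  have hg0 : g = 0 := by
    apply eq_zero_of_root hq hθ hg1
    have hd : g.degree < (f.comp (X + C 1)).degree := by
      apply degree_sub_lt_left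
      · rw [degree_eq_natDegree hfc.ne_zero, degree_eq_natDegree hfm.ne_zero, hdeg]
      · exact hfc.ne_zero
      · rw [hfc.leadingCoeff, hfm.leadingCoeff]
    by_cases hz : g = 0
    · rw [hz]; simp
    · have hlt := natDegree_lt_natDegree hz hd
      rw [hdeg] at hlt
      omega
  -- roots are invariant under translation by one
  have hinv : ∀ x : K, f.eval x = 0 → f.eval (x + 1) = 0 := by
    intro x hx
    have h5 : f.comp (X + C 1) = f := sub_eq_zero.1 hg0
    have h6 : (f.comp (X + C 1)).eval x = f.eval x := by rw [h5]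
    rw [eval_comp] at h6
    simp only [eval_add, eval_X, eval_C] at h6
    rw [h6, hx]
  have hev : ∀ x : K, f.eval x =
      ∏ t ∈ R, (x + t) ^ (l t).toNat * (x + (t + 1)) ^ (-l t).toNat := by
    intro x
    rw [hf]
    unfold fpoly
    rw [eval_prod]
    apply prod_congr rfl
    intro t _
    simp
  have hroot : ∀ x : K, f.eval x = 0 ↔ ∃ t ∈ R, (x = t ∧ 0 < l t) ∨ (x = t + 1 ∧ l t < 0) := by
    intro x
    rw [hev, prod_eq_zero_iff]
    constructor
    · rintro ⟨t, ht, h7⟩
      refine ⟨t, ht, ?_⟩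
      rcases mul_eq_zero.1 h7 with h8 | h8
      · left
        rw [pow_eq_zero_iff'] at h8
        refine ⟨?_, by omega⟩
        have := eq_neg_of_add_eq_zero_left h8.1
        rwa [CharTwo.neg_eq] at this
      · right
        rw [pow_eq_zero_iff'] at h8
        refine ⟨?_, by omega⟩
        have := eq_neg_of_add_eq_zero_left h8.1
        rwa [CharTwo.neg_eq] at this
    · rintro ⟨t, ht, ⟨rfl, h7⟩ | ⟨rfl, h7⟩⟩
      · refine ⟨x, ht, ?_⟩
        rw [CharTwo.add_self_eq_zero, zero_pow (by omega), zero_mul]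
      · refine ⟨t, ht, ?_⟩
        rw [CharTwo.add_self_eq_zero, zero_pow (n := (-l t).toNat) (by omega), mul_zero]
  -- a nonzero coefficient
  obtain ⟨t₀, ht₀, hl⟩ : ∃ t ∈ R, l t ≠ 0 := by
    by_contra hcon
    push Not at hcon
    have : ∑ t ∈ R, |l t| = 0 := by
      apply sum_eq_zero
      intro t ht
      rw [hcon t ht, abs_zero]
    omega
  rcases lt_or_gt_of_ne hl with hneg | hpos
  · -- `t₀ + 1` is a root, hence `t₀` is a root
    have h7 : f.eval (t₀ + 1) = 0 := (hroot _).2 ⟨t₀, ht₀, Or.inr ⟨rfl, hneg⟩⟩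
    have h8 := hinv _ h7
    have h9 : t₀ + 1 + 1 = t₀ := by rw [add_assoc, CharTwo.add_self_eq_zero, add_zero]
    rw [h9, hroot] at h8
    obtain ⟨t, ht, ⟨rfl, h10⟩ | ⟨h10, -⟩⟩ := h8
    · omega
    · exact hR t ht (h10 ▸ ht₀)
  · have h7 : f.eval t₀ = 0 := (hroot _).2 ⟨t₀, ht₀, Or.inl ⟨rfl, hpos⟩⟩
    have h8 := hinv _ h7
    rw [hroot] at h8
    obtain ⟨t, ht, ⟨h10, -⟩ | ⟨h10, h11⟩⟩ := h8
    · exact hR t₀ ht₀ (h10 ▸ ht)
    · have : t₀ = t := add_right_cancel h10
      rw [this] at hpos
      omega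

/-- Representatives of the orbits of `t ↦ t + 1`. -/
lemma exists_reps : ∃ R : Finset K, (∀ t ∈ R, t + 1 ∉ R) ∧ 2 * R.card = Fintype.card K := by
  classical
  have h11 : ∀ t : K, t + 1 + 1 = t := fun t => by
    rw [add_assoc, CharTwo.add_self_eq_zero, add_zero]
  have hne : ∀ t : K, t + 1 ≠ t := by
    intro t h
    have : t + 1 = t + 0 := by rw [add_zero]; exact h
    exact one_ne_zero (add_left_cancel this)
  let enc := Fintype.equivFin K
  set R : Finset K := univ.filter fun t => enc t < enc (t + 1) with hR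
  have hR1 : ∀ t, t + 1 ∈ R ↔ t ∉ R := by
    intro t
    rw [hR, mem_filter, mem_filter, h11]
    simp only [mem_univ, true_and, not_lt]
    constructor
    · exact fun h => h.le
    · intro h
      refine lt_of_le_of_ne h ?_
      intro h2
      exact hne t (enc.injective h2)
  refine ⟨R, fun t ht h => (hR1 t).1 h ht, ?_⟩
  have h1 : R.card = (univ.filter fun t => t ∉ R).card := by
    apply card_nbij' (fun t => t + 1) (fun t => t + 1)
    · intro t ht
      simp only [coe_filter, mem_univ, true_and, Set.mem_ofPred_eq]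
      intro h
      exact (hR1 t).1 h ht
    · intro t ht
      simp only [coe_filter, mem_univ, true_and, Set.mem_ofPred_eq] at ht
      exact (hR1 t).2 ht
    · intro t _
      exact h11 t
    · intro t _
      exact h11 t
  have h2 : (univ.filter fun t => t ∈ R).card + (univ.filter fun t => ¬ t ∈ R).card =
      Fintype.card K := by
    rw [card_filter_add_card_filter_not, card_univ]
  have h3 : (univ.filter fun t => t ∈ R) = R := by
    ext t; simp
  rw [h3] at h2
  omega

include hq hθ in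
lemma s_pow (t : K) : ((θ + algebraMap K Ω t) / (θ + algebraMap K Ω t + 1)) ^
    (Fintype.card K * Fintype.card K + 1) = 1 := by
  have h1 : (θ + algebraMap K Ω t) ^ (Fintype.card K * Fintype.card K) =
      θ + algebraMap K Ω t + 1 := by
    rw [pow_mul, add_pow_q hq, add_pow_q hq, algebraMap_pow_card, algebraMap_pow_card, hθ]
    ring
  have h2 : (θ + algebraMap K Ω t + 1) ^ (Fintype.card K * Fintype.card K) =
      θ + algebraMap K Ω t := by
    have : θ + algebraMap K Ω t + 1 = θ + algebraMap K Ω (t + 1) := by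
      rw [map_add, map_one, add_assoc]
    rw [this, pow_mul, add_pow_q hq, add_pow_q hq, algebraMap_pow_card, algebraMap_pow_card, hθ,
      map_add, map_one]
    have e : θ + 1 + (algebraMap K Ω t + 1) = θ + algebraMap K Ω t + 1 + 1 := by ring
    rw [e, add_one_add_one]
  rw [pow_succ, div_pow, h1, h2]
  have h3 := theta_add_ne hθ t
  have h4 := theta_add_one_ne hθ t
  field_simp

include hθ in
lemma s_injective {t t' : K} (h : (θ + algebraMap K Ω t) / (θ + algebraMap K Ω t + 1) =
    (θ + algebraMap K Ω t') / (θ + algebraMap K Ω t' + 1)) : t = t' := by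
  have h4 := theta_add_one_ne hθ t
  have h4' := theta_add_one_ne hθ t'
  rw [div_eq_div_iff h4 h4'] at h
  have h5 : algebraMap K Ω t = algebraMap K Ω t' := by
    linear_combination h
  exact (algebraMap K Ω).injective h5

include hq hθ in
/-- The set in `ℤ/2(q²+1)`. -/
lemma exists_indep [IsAlgClosed Ω] : ∃ A : Finset (ZMod (2 * (Fintype.card K * Fintype.card K + 1))),
    2 * A.card = Fintype.card K ∧ IsTIndep 5 A := by
  classical
  obtain ⟨R, hR, hRc⟩ := exists_reps (K := K)
  set q := Fintype.card K with hqq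
  set N := q * q + 1 with hN
  have hN2 : (N : Ω) ≠ 0 := by
    rcases Nat.eq_zero_or_pos s with h0 | h0
    · exfalso
      rw [h0, pow_zero] at hq
      have := Fintype.one_lt_card (α := K)
      omega
    · have h2 : ((2 : ℕ) : Ω) = 0 := CharP.cast_eq_zero Ω 2
      obtain ⟨r, rfl⟩ : ∃ r, s = r + 1 := ⟨s - 1, by omega⟩
      rw [hN, hq, pow_succ]
      push_cast at h2 ⊢
      rw [h2]
      simp
  have hNodd : Odd N := by
    rcases Nat.eq_zero_or_pos s with h0 | h0
    · exfalso
      rw [h0, pow_zero] at hq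
      have := Fintype.one_lt_card (α := K)
      omega
    · obtain ⟨r, rfl⟩ : ∃ r, s = r + 1 := ⟨s - 1, by omega⟩
      refine ⟨2 ^ r * 2 ^ (r + 1), ?_⟩
      rw [hN, hq]; ring
  have hNpos : 0 < N := by omega
  have : NeZero (N : Ω) := ⟨hN2⟩
  have : NeZero N := ⟨hNpos.ne'⟩
  have : HasEnoughRootsOfUnity Ω N := IsSepClosed.hasEnoughRootsOfUnity Ω N
  obtain ⟨ζ, hζ⟩ := HasEnoughRootsOfUnity.exists_primitiveRoot Ω N
  have hζ0 : ζ ≠ 0 := hζ.ne_zero hNpos.ne'
  -- the exponents
  have hex : ∀ t : K, ∃ m : ℕ, Odd m ∧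
      ζ ^ m = (θ + algebraMap K Ω t) / (θ + algebraMap K Ω t + 1) := by
    intro t
    obtain ⟨e, -, he⟩ := hζ.eq_pow_of_pow_eq_one (s_pow hq hθ t)
    rcases Nat.even_or_odd e with h | h
    · refine ⟨e + N, h.add_odd hNodd, ?_⟩
      rw [pow_add, hζ.pow_eq_one, mul_one, he]
    · exact ⟨e, h, he⟩
  choose m hm hζm using hex
  set a : K → ZMod (2 * N) := fun t => ((m t : ℕ) : ZMod (2 * N)) with ha
  have hainj : Function.Injective a := by
    intro t t' h
    have h1 : ((m t : ℤ) : ZMod (2 * N)) = ((m t' : ℤ) : ZMod (2 * N)) := by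
      push_cast; exact h
    rw [ZMod.intCast_eq_intCast_iff_dvd_sub] at h1
    have h2 : (N : ℤ) ∣ (m t' : ℤ) - m t := by
      refine dvd_trans ?_ h1
      push_cast
      exact Dvd.intro_left _ rfl
    rw [← hζ.zpow_eq_one_iff_dvd, zpow_sub₀ hζ0, zpow_natCast, zpow_natCast, hζm, hζm] at h2
    have h3 : (θ + algebraMap K Ω t) / (θ + algebraMap K Ω t + 1) ≠ 0 :=
      div_ne_zero (theta_add_ne hθ t) (theta_add_one_ne hθ t)
    rw [div_eq_one_iff_eq h3] at h2
    exact (s_injective hθ h2).symm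
  refine ⟨R.image a, ?_, ?_⟩
  · rw [card_image_of_injective _ hainj, hRc]
  intro c h1 h5 h0
  rw [sum_image (fun x _ y _ h => hainj h)] at h1 h5 h0
  have hdvd : ((2 * N : ℕ) : ℤ) ∣ ∑ t ∈ R, c (a t) * (m t : ℤ) := by
    rw [← ZMod.intCast_zmod_eq_zero_iff_dvd]
    push_cast
    exact h0
  -- the length is even
  have heven : (2 : ℤ) ∣ ∑ t ∈ R, |c (a t)| := by
    have h2 : (2 : ℤ) ∣ ∑ t ∈ R, c (a t) * (m t : ℤ) := by
      refine dvd_trans ?_ hdvd
      push_cast
      exact Dvd.intro _ rfl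
    have h3 : (2 : ℤ) ∣ ∑ t ∈ R, (|c (a t)| - c (a t) * (m t : ℤ)) := by
      apply dvd_sum
      intro t _
      obtain ⟨r, hr⟩ := hm t
      rw [hr]
      push_cast
      rcases abs_choice (c (a t)) with h | h
      · rw [h]; exact ⟨-(c (a t) * r), by ring⟩
      · rw [h]; exact ⟨-(c (a t)) - (c (a t) * r), by ring⟩
    rw [sum_sub_distrib] at h3
    have := dvd_add h3 h2
    rwa [sub_add_cancel] at this
  have h4 : ∑ t ∈ R, |c (a t)| ≤ 4 := by
    push_cast at h5
    omega
  apply prod_ne_one hq hθ hR h1 h4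
  have h6 : (N : ℤ) ∣ ∑ t ∈ R, c (a t) * (m t : ℤ) := by
    refine dvd_trans ?_ hdvd
    push_cast
    exact Dvd.intro_left _ rfl
  rw [← hζ.zpow_eq_one_iff_dvd] at h6
  have h7 : ∀ R' : Finset K, ζ ^ (∑ t ∈ R', c (a t) * (m t : ℤ)) =
      ∏ t ∈ R', ((θ + algebraMap K Ω t) / (θ + algebraMap K Ω t + 1)) ^ c (a t) := by
    intro R'
    induction R' using Finset.induction_on with
    | empty => simp
    | insert t R' ht ih =>
      rw [sum_insert ht, prod_insert ht, zpow_add₀ hζ0, ih]
      congr 1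
      rw [mul_comm, zpow_mul, zpow_natCast, hζm]
  exact (h7 R).symm.trans h6

lemma exists_theta [IsAlgClosed Ω] (h : 1 < Fintype.card K) :
    ∃ θ : Ω, (θ ^ Fintype.card K) ^ Fintype.card K = θ + 1 := by
  set q := Fintype.card K with hq
  have hqq : 1 < q * q := by nlinarith
  obtain ⟨x, hx⟩ := IsAlgClosed.exists_root (X ^ (q * q) - X - C 1 : Polynomial Ω) (by
    intro h0
    have h1 : (X ^ (q * q) - X - C 1 : Polynomial Ω).natDegree = q * q := by
      rw [natDegree_sub_C, FiniteField.X_pow_card_sub_X_natDegree_eq Ω hqq]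
    have h2 := natDegree_eq_zero_iff_degree_le_zero.2 h0.le
    rw [h1] at h2
    omega)
  refine ⟨x, ?_⟩
  rw [IsRoot.def, eval_sub, eval_sub, eval_pow, eval_X, eval_C] at hx
  rw [← pow_mul]
  linear_combination hx

end Curve

/-- The lower bound. -/
theorem lower {s : ℕ} (hs : 1 ≤ s) : ∃ A : Finset (ZMod (2 * (4 ^ s + 1))),
    A.card = 2 ^ (s - 1) ∧ IsTIndep 5 A := by
  have : Fintype (GaloisField 2 s) := Fintype.ofFinite _
  have hc : Fintype.card (GaloisField 2 s) = 2 ^ s := by
    rw [← Nat.card_eq_fintype_card]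
    exact GaloisField.card 2 s (by omega)
  have h1 : 1 < Fintype.card (GaloisField 2 s) := Fintype.one_lt_card
  have : CharP (AlgebraicClosure (GaloisField 2 s)) 2 :=
    charP_of_injective_algebraMap (algebraMap (GaloisField 2 s) _).injective 2
  obtain ⟨θ, hθ⟩ := exists_theta (K := GaloisField 2 s) (Ω := AlgebraicClosure (GaloisField 2 s)) h1
  have h2 := exists_indep hc hθ
  have h3 : Fintype.card (GaloisField 2 s) * Fintype.card (GaloisField 2 s) = 4 ^ s := by
    rw [hc, ← mul_pow]
    norm_num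
  rw [h3] at h2
  obtain ⟨A, hA1, hA2⟩ := h2
  refine ⟨A, ?_, hA2⟩
  rw [hc] at hA1
  have h4 : 2 ^ s = 2 * 2 ^ (s - 1) := by
    rw [← pow_succ']
    congr 1
    omega
  omega

end Pool.Agent.Q39.TI
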