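import Mathlib

/-!
# Pollard's theorem on popular sums in a cyclic group of prime order
-/

set_option autoImplicit false
set_option linter.unusedSectionVars false

open Finset

namespace Pool.Agent.Q39.TI

section Basic

variable {p : ℕ} [NeZero p]

/-- The number of representations of `x` as a sum of an element of `A` and an element of `B`. -/
def rep (A B : Finset (ZMod p)) (x : ZMod p) : ℕ :=
  (A.filter fun a => x - a ∈ B).card

lemma rep_eq_sum (A B : Finset (ZMod p)) (x : ZMod p) :
    rep A B x = ∑ a, (if a ∈ A then 1 else 0) * (if x - a ∈ B then 1 else 0) := by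
  unfold rep
  rw [card_filter, sum_ite_mem_eq_aux]
where
  sum_ite_mem_eq_aux : (∑ a ∈ A, if x - a ∈ B then 1 else 0) =
      ∑ a, (if a ∈ A then 1 else 0) * (if x - a ∈ B then 1 else 0) := by
    rw [← sum_filter_add_sum_filter_not univ (fun a => a ∈ A)
      (fun a => (if a ∈ A then 1 else 0) * (if x - a ∈ B then 1 else 0))]
    have h1 : ∑ a ∈ univ.filter (fun a => ¬ a ∈ A),
        (if a ∈ A then 1 else 0) * (if x - a ∈ B then 1 else 0) = 0 := by
      apply sum_eq_zero
      intro a ha
      rw [mem_filter] at ha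
      rw [if_neg ha.2, zero_mul]
    rw [h1, add_zero, filter_mem_eq_inter, univ_inter]
    apply sum_congr rfl
    intro a ha
    rw [if_pos ha, one_mul]

lemma rep_le_left (A B : Finset (ZMod p)) (x : ZMod p) : rep A B x ≤ A.card :=
  card_filter_le _ _

lemma rep_comm (A B : Finset (ZMod p)) (x : ZMod p) : rep A B x = rep B A x := by
  rw [rep_eq_sum, rep_eq_sum, ← Equiv.sum_comp (Equiv.subLeft x)]
  apply sum_congr rfl
  intro a _
  simp only [Equiv.subLeft_apply, sub_sub_cancel]
  rw [mul_comm]

lemma rep_le_right (A B : Finset (ZMod p)) (x : ZMod p) : rep A B x ≤ B.card := by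
  rw [rep_comm]; exact rep_le_left _ _ _

lemma rep_mono {A A' B B' : Finset (ZMod p)} (hA : A ⊆ A') (hB : B ⊆ B') (x : ZMod p) :
    rep A B x ≤ rep A' B' x := by
  apply card_le_card
  intro a ha
  rw [mem_filter] at ha ⊢
  exact ⟨hA ha.1, hB ha.2⟩

lemma sum_rep (A B : Finset (ZMod p)) : ∑ x, rep A B x = A.card * B.card := by
  simp only [rep_eq_sum]
  rw [sum_comm]
  have h : ∀ a : ZMod p, ∑ x : ZMod p, (if a ∈ A then 1 else 0) * (if x - a ∈ B then 1 else 0) =
      (if a ∈ A then 1 else 0) * B.card := by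
    intro a
    rw [← mul_sum]
    congr 1
    have h0 := Equiv.sum_comp (Equiv.subRight a) (fun y => if y ∈ B then 1 else 0)
    simp only [Equiv.subRight_apply] at h0
    rw [h0]
    simp
  simp only [h]
  rw [← sum_mul]
  congr 1
  simp

lemma rep_shift (A B : Finset (ZMod p)) (e x : ZMod p) :
    rep A (B.map (addRightEmbedding e)) x = rep A B (x - e) := by
  unfold rep
  congr 1
  apply filter_congr
  intro a _
  rw [mem_map]
  constructor
  · rintro ⟨b, hb, h⟩
    simp only [addRightEmbedding_apply] at h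
    rwa [show x - e - a = b by rw [sub_sub, add_comm e a, ← sub_sub, ← h]; ring]
  · intro h
    exact ⟨x - e - a, h, by simp only [addRightEmbedding_apply]; ring⟩

lemma rep_union_inter (A B : Finset (ZMod p)) (x : ZMod p) :
    rep A B x = rep (A ∪ B) (A ∩ B) x + rep (A \ B) (B \ A) x := by
  have key : ∑ a : ZMod p, (if a ∈ A ∩ B then 1 else 0) * (if x - a ∈ B \ A then 1 else 0) =
      ∑ a : ZMod p, (if a ∈ B \ A then 1 else 0) * (if x - a ∈ A ∩ B then 1 else 0) := by
    rw [← rep_eq_sum, ← rep_eq_sum, rep_comm]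
  have h1 : rep A B x = (∑ a : ZMod p, (if a ∈ A ∩ B then 1 else 0) * (if x - a ∈ A ∩ B then 1 else 0))
      + (∑ a : ZMod p, (if a ∈ A ∩ B then 1 else 0) * (if x - a ∈ B \ A then 1 else 0))
      + (∑ a : ZMod p, (if a ∈ A \ B then 1 else 0) * (if x - a ∈ A ∩ B then 1 else 0))
      + (∑ a : ZMod p, (if a ∈ A \ B then 1 else 0) * (if x - a ∈ B \ A then 1 else 0)) := by
    rw [rep_eq_sum, ← sum_add_distrib, ← sum_add_distrib, ← sum_add_distrib]
    apply sum_congr rfl
    intro a _
    simp only [mem_inter, mem_sdiff]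
    by_cases h1 : a ∈ A <;> by_cases h2 : a ∈ B <;> by_cases h3 : x - a ∈ A <;>
      by_cases h4 : x - a ∈ B <;> simp [h1, h2, h3, h4]
  have h2 : rep (A ∪ B) (A ∩ B) x =
      (∑ a : ZMod p, (if a ∈ A ∩ B then 1 else 0) * (if x - a ∈ A ∩ B then 1 else 0))
      + (∑ a : ZMod p, (if a ∈ B \ A then 1 else 0) * (if x - a ∈ A ∩ B then 1 else 0))
      + (∑ a : ZMod p, (if a ∈ A \ B then 1 else 0) * (if x - a ∈ A ∩ B then 1 else 0)) := by
    rw [rep_eq_sum, ← sum_add_distrib, ← sum_add_distrib]
    apply sum_congr rfl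
    intro a _
    simp only [mem_inter, mem_sdiff, mem_union]
    by_cases h1 : a ∈ A <;> by_cases h2 : a ∈ B <;> by_cases h3 : x - a ∈ A <;>
      by_cases h4 : x - a ∈ B <;> simp [h1, h2, h3, h4]
  rw [h1, h2, key, rep_eq_sum (A \ B)]

end Basic

variable {p : ℕ} [Fact p.Prime]

/-- A nonempty set that is closed under adding `d ≠ 0` is everything. -/
lemma eq_univ_of_add_closed {A : Finset (ZMod p)} (hA : A.Nonempty) {d : ZMod p} (hd : d ≠ 0)
    (h : ∀ a ∈ A, a + d ∈ A) : A = univ := by
  obtain ⟨a, ha⟩ := hA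
  have h1 : ∀ j : ℕ, a + (j : ZMod p) * d ∈ A := by
    intro j
    induction j with
    | zero => simpa using ha
    | succ j ih =>
      have := h _ ih
      rwa [show a + (j : ZMod p) * d + d = a + ((j + 1 : ℕ) : ZMod p) * d by push_cast; ring] at this
  rw [eq_univ_iff_forall]
  intro x
  have h2 := h1 ((x - a) * d⁻¹).val
  rw [ZMod.natCast_zmod_val, mul_assoc, inv_mul_cancel₀ hd, mul_one, add_sub_cancel] at h2
  exact h2

lemma exists_shift {A B : Finset (ZMod p)} (hA : A.Nonempty) (hA' : A ≠ univ) (hB : 2 ≤ B.card) :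
    ∃ e : ZMod p, (A ∩ B.map (addRightEmbedding e)).Nonempty ∧
      (A ∩ B.map (addRightEmbedding e)).card < B.card := by
  by_contra hcon
  push Not at hcon
  obtain ⟨b₁, hb₁, b₂, hb₂, hne⟩ := one_lt_card.1 (show 1 < B.card by omega)
  apply hA'
  apply eq_univ_of_add_closed hA (d := b₂ - b₁) (sub_ne_zero.2 hne.symm)
  intro a ha
  have h1 : (A ∩ B.map (addRightEmbedding (a - b₁))).Nonempty := by
    refine ⟨a, mem_inter.2 ⟨ha, mem_map.2 ⟨b₁, hb₁, ?_⟩⟩⟩
    simp
  have h2 := hcon _ h1
  have h3 : A ∩ B.map (addRightEmbedding (a - b₁)) = B.map (addRightEmbedding (a - b₁)) := by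
    apply eq_of_subset_of_card_le inter_subset_right
    rw [card_map]; exact h2
  have h4 : b₂ + (a - b₁) ∈ B.map (addRightEmbedding (a - b₁)) := mem_map.2 ⟨b₂, hb₂, rfl⟩
  rw [← h3] at h4
  have h5 := (mem_inter.1 h4).1
  rwa [show a + (b₂ - b₁) = b₂ + (a - b₁) by ring]

/-- **Pollard's theorem.** -/
theorem pollard : ∀ (n : ℕ) (A B : Finset (ZMod p)) (t : ℕ), B.card = n → t ≤ A.card →
    t ≤ B.card → t * min p (A.card + B.card - t) ≤ ∑ x, min t (rep A B x) := by
  intro n
  induction n using Nat.strong_induction_on with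
  | _ n ih =>
  intro A B t hn htA htB
  rcases Nat.eq_zero_or_pos t with rfl | ht
  · simp
  have hAp : A.card ≤ p := by
    have := card_le_univ A
    rwa [ZMod.card] at this
  have hBp : B.card ≤ p := by
    have := card_le_univ B
    rwa [ZMod.card] at this
  by_cases hbig : p < A.card + B.card - t
  · obtain ⟨B', hB', hc⟩ := exists_subset_card_eq (s := B) (n := p + t - A.card) (by omega)
    have h1 := ih B'.card (by omega) A B' t rfl htA (by omega)
    have h2 : ∑ x, min t (rep A B' x) ≤ ∑ x, min t (rep A B x) :=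
      sum_le_sum fun x _ => min_le_min le_rfl (rep_mono (Subset.refl _) hB' x)
    rw [show min p (A.card + B'.card - t) = p by omega] at h1
    rw [show min p (A.card + B.card - t) = p by omega]
    exact h1.trans h2
  rw [show min p (A.card + B.card - t) = A.card + B.card - t by omega]
  rcases Nat.eq_or_lt_of_le htB with heq | hlt
  · have h1 : ∀ x, min t (rep A B x) = rep A B x := by
      intro x
      have := rep_le_right A B x
      omega
    simp only [h1]
    rw [sum_rep, ← heq, Nat.add_sub_cancel, mul_comm]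
  have hA0 : A.Nonempty := card_pos.1 (by omega)
  have hA1 : A ≠ univ := by
    intro h
    rw [h, card_univ, ZMod.card] at hbig
    omega
  obtain ⟨e, he1, he2⟩ := exists_shift hA0 hA1 (B := B) (by omega)
  set B₁ := B.map (addRightEmbedding e) with hB₁
  have hc1 : B₁.card = B.card := card_map _
  have hsum : ∑ x, min t (rep A B x) = ∑ x, min t (rep A B₁ x) := by
    simp only [hB₁, rep_shift]
    exact (Equiv.sum_comp (Equiv.subRight e) (fun y => min t (rep A B y))).symm
  rw [hsum, ← hc1]
  rw [← hc1] at he2 htB hlt hbig hn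
  have hUI : (A ∪ B₁).card + (A ∩ B₁).card = A.card + B₁.card := card_union_add_card_inter A B₁
  have hA' : (A \ B₁).card + (A ∩ B₁).card = A.card := card_sdiff_add_card_inter A B₁
  have hB' : (B₁ \ A).card + (A ∩ B₁).card = B₁.card := by
    rw [inter_comm]; exact card_sdiff_add_card_inter B₁ A
  have hI : 0 < (A ∩ B₁).card := card_pos.2 he1
  by_cases hcase : t ≤ (A ∩ B₁).card
  · have h1 := ih (A ∩ B₁).card (by omega) (A ∪ B₁) (A ∩ B₁) t rfl (by omega) hcase
    rw [hUI, show min p (A.card + B₁.card - t) = A.card + B₁.card - t by omega] at h1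
    refine h1.trans (sum_le_sum fun x _ => min_le_min le_rfl ?_)
    rw [rep_union_inter A B₁ x]
    exact Nat.le_add_right _ _
  · push Not at hcase
    set i := (A ∩ B₁).card with hi
    have h1 := ih (B₁ \ A).card (by omega) (A \ B₁) (B₁ \ A) (t - i) rfl (by omega) (by omega)
    rw [show min p ((A \ B₁).card + (B₁ \ A).card - (t - i)) = A.card + B₁.card - i - t by omega]
      at h1
    have h2 : ∑ x, rep (A ∪ B₁) (A ∩ B₁) x = (A ∪ B₁).card * i := sum_rep _ _
    have h3 : ∀ x, rep (A ∪ B₁) (A ∩ B₁) x + min (t - i) (rep (A \ B₁) (B₁ \ A) x) ≤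
        min t (rep A B₁ x) := by
      intro x
      have h4 := rep_union_inter A B₁ x
      have h5 : rep (A ∪ B₁) (A ∩ B₁) x ≤ i := rep_le_right _ _ _
      omega
    have h6 : (A ∪ B₁).card * i + (t - i) * (A.card + B₁.card - i - t) ≤
        ∑ x, min t (rep A B₁ x) := by
      rw [← h2]
      refine le_trans (Nat.add_le_add_left h1 _) ?_
      rw [← sum_add_distrib]
      exact sum_le_sum fun x _ => h3 x
    refine le_trans (le_of_eq ?_) h6
    have h7 : (A ∪ B₁).card = A.card + B₁.card - i := by omega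
    rw [h7]
    zify [show i ≤ A.card + B₁.card by omega, show i ≤ t by omega,
      show t ≤ A.card + B₁.card - i by omega, show t ≤ A.card + B₁.card by omega]
    ring

/-- Popular sums. -/
lemma popular (A B : Finset (ZMod p)) (t u : ℕ) (htA : t ≤ A.card) (htB : t ≤ B.card) :
    t * min p (A.card + B.card - t) ≤ t * (univ.filter fun x => u ≤ rep A B x).card + u * p := by
  refine (pollard _ A B t rfl htA htB).trans ?_
  rw [← sum_filter_add_sum_filter_not univ (fun x => u ≤ rep A B x)]
  apply Nat.add_le_add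
  · calc ∑ x ∈ univ.filter (fun x => u ≤ rep A B x), min t (rep A B x)
        ≤ ∑ x ∈ univ.filter (fun x => u ≤ rep A B x), t := sum_le_sum fun x _ => min_le_left _ _
      _ = t * (univ.filter fun x => u ≤ rep A B x).card := by
        rw [sum_const, smul_eq_mul, mul_comm]
  · calc ∑ x ∈ univ.filter (fun x => ¬ u ≤ rep A B x), min t (rep A B x)
        ≤ ∑ x ∈ univ.filter (fun x => ¬ u ≤ rep A B x), u := by
          apply sum_le_sum
          intro x hx
          rw [mem_filter] at hx
          have := hx.2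
          exact (min_le_right _ _).trans (by omega)
      _ ≤ u * p := by
        rw [sum_const, smul_eq_mul, mul_comm]
        apply Nat.mul_le_mul_left
        have := card_le_univ (univ.filter fun x => ¬ u ≤ rep A B x)
        rwa [ZMod.card] at this

end Pool.Agent.Q39.TI
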