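import Pool.Agent.Q39.TI.Fourier
import Pool.Agent.Q39.TI.Defs

/-!
# Properties of the symmetric set `A ∪ -A` for an independent set `A`
-/

set_option autoImplicit false
set_option linter.unusedSectionVars false

open Finset

namespace Pool.Agent.Q39.TI

variable {p : ℕ} [NeZero p] {t : ℕ} {A : Finset (ZMod p)}

/-- `A ∪ -A`. -/
def sym (A : Finset (ZMod p)) : Finset (ZMod p) := univ.filter fun x => x ∈ A ∨ -x ∈ A

lemma mem_sym {x : ZMod p} : x ∈ sym A ↔ x ∈ A ∨ -x ∈ A := by simp [sym]

lemma neg_mem_sym {x : ZMod p} : -x ∈ sym A ↔ x ∈ sym A := by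
  rw [mem_sym, mem_sym, neg_neg, or_comm]

/-- The coefficient vector of an element of `A ∪ -A`. -/
noncomputable def vec (A : Finset (ZMod p)) (s : ZMod p) : ZMod p → ℤ :=
  if s ∈ A then Pi.single s 1 else Pi.single (-s) (-1)

lemma vec_sum_mul {s : ZMod p} (hs : s ∈ sym A) : ∑ x ∈ A, (vec A s x : ZMod p) * x = s := by
  unfold vec
  split_ifs with h
  · rw [sum_eq_single s]
    · simp
    · intro b _ hb; simp [Pi.single_eq_of_ne hb]
    · intro h'; exact absurd h h'
  · have h2 : -s ∈ A := (mem_sym.1 hs).resolve_left h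
    rw [sum_eq_single (-s)]
    · simp
    · intro b _ hb; simp [Pi.single_eq_of_ne hb]
    · intro h'; exact absurd h2 h'

lemma vec_sum_abs {s : ZMod p} (hs : s ∈ sym A) : ∑ x ∈ A, |vec A s x| = 1 := by
  unfold vec
  split_ifs with h
  · rw [sum_eq_single s]
    · simp
    · intro b _ hb; simp [Pi.single_eq_of_ne hb]
    · intro h'; exact absurd h h'
  · have h2 : -s ∈ A := (mem_sym.1 hs).resolve_left h
    rw [sum_eq_single (-s)]
    · simp
    · intro b _ hb; simp [Pi.single_eq_of_ne hb]
    · intro h'; exact absurd h2 h'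

/-- A relation between at most `t` elements of `A ∪ -A` is trivial. -/
lemma vec_eq_zero (hA : IsTIndep t A) {j : ℕ} (hj : j ≤ t) (s : Fin j → ZMod p)
    (hs : ∀ i, s i ∈ sym A) (h : ∑ i, s i = 0) : ∀ x ∈ A, ∑ i, vec A (s i) x = 0 := by
  by_contra hcon
  push Not at hcon
  obtain ⟨x₀, hx₀, hne⟩ := hcon
  refine hA (fun x => ∑ i, vec A (s i) x) ?_ ?_ ?_
  · have h1 : |∑ i, vec A (s i) x₀| ≤ ∑ x ∈ A, |∑ i, vec A (s i) x| :=
      single_le_sum (f := fun x => |∑ i, vec A (s i) x|) (fun x _ => abs_nonneg _) hx₀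
    have h2 : 1 ≤ |∑ i, vec A (s i) x₀| := Int.one_le_abs hne
    exact h2.trans h1
  · calc ∑ x ∈ A, |∑ i, vec A (s i) x| ≤ ∑ x ∈ A, ∑ i, |vec A (s i) x| :=
          sum_le_sum fun x _ => abs_sum_le_sum_abs _ _
      _ = ∑ i, ∑ x ∈ A, |vec A (s i) x| := sum_comm
      _ = ∑ i : Fin j, 1 := sum_congr rfl fun i _ => vec_sum_abs (hs i)
      _ ≤ t := by simp; exact_mod_cast hj
  · push_cast
    simp only [sum_mul]
    rw [sum_comm]
    rw [← h]
    exact sum_congr rfl fun i _ => vec_sum_mul (hs i)

/-- `A` and `-A` are disjoint. -/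
lemma neg_notMem (hA : IsTIndep t A) (ht : 2 ≤ t) {a : ZMod p} (ha : a ∈ A) : -a ∉ A := by
  intro hna
  have h := vec_eq_zero hA ht ![a, -a] (by
    intro i; fin_cases i
    · exact mem_sym.2 (Or.inl ha)
    · exact mem_sym.2 (Or.inl hna)) (by simp) a ha
  simp only [Fin.sum_univ_two, Matrix.cons_val_zero, Matrix.cons_val_one] at h
  unfold vec at h
  rw [if_pos ha, if_pos hna, Pi.single_eq_same] at h
  have h2 : 0 ≤ (Pi.single (-a) 1 : ZMod p → ℤ) a := by
    by_cases h3 : a = -a
    · rw [← h3, Pi.single_eq_same]; norm_num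
    · rw [Pi.single_eq_of_ne h3]
  omega

lemma card_sym (hA : IsTIndep t A) (ht : 2 ≤ t) : (sym A).card = 2 * A.card := by
  have h1 : sym A = A ∪ A.map (Equiv.neg (ZMod p)).toEmbedding := by
    ext x
    rw [mem_sym, mem_union, mem_map]
    constructor
    · rintro (h | h)
      · exact Or.inl h
      · exact Or.inr ⟨-x, h, by simp⟩
    · rintro (h | ⟨y, hy, hyx⟩)
      · exact Or.inl h
      · right
        simp only [Equiv.coe_toEmbedding, Equiv.neg_apply] at hyx
        rw [← hyx, neg_neg]; exact hy
  rw [h1, card_union_of_disjoint, card_map]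
  · ring
  · rw [disjoint_left]
    intro x hx hx'
    rw [mem_map] at hx'
    obtain ⟨y, hy, hyx⟩ := hx'
    simp only [Equiv.coe_toEmbedding, Equiv.neg_apply] at hyx
    apply neg_notMem hA ht hx
    rw [← hyx, neg_neg]; exact hy

lemma vec_neg (hA : IsTIndep t A) (ht : 2 ≤ t) {s : ZMod p} (hs : s ∈ sym A) (x : ZMod p) :
    vec A (-s) x = - vec A s x := by
  unfold vec
  by_cases h : s ∈ A
  · rw [if_pos h, if_neg (neg_notMem hA ht h), neg_neg]
    by_cases hx : x = s
    · subst hx; simp
    · simp [Pi.single_eq_of_ne hx]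
  · have h2 : -s ∈ A := (mem_sym.1 hs).resolve_left h
    rw [if_neg h, if_pos h2]
    by_cases hx : x = -s
    · subst hx; simp
    · simp [Pi.single_eq_of_ne hx]

/-- There is no relation of odd length at most `t`. -/
lemma no_odd (hA : IsTIndep t A) {j : ℕ} (hj : j ≤ t) (hodd : Odd j) (s : Fin j → ZMod p)
    (hs : ∀ i, s i ∈ sym A) : ∑ i, s i ≠ 0 := by
  intro h
  have h1 := vec_eq_zero hA hj s hs h
  have h2 : ∑ x ∈ A, ∑ i, vec A (s i) x = 0 := sum_eq_zero h1
  rw [sum_comm] at h2
  have h3 : ∀ i, Odd (∑ x ∈ A, vec A (s i) x) := by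
    intro i
    unfold vec
    split_ifs with h
    · rw [sum_eq_single (s i)]
      · simp
      · intro b _ hb; simp [Pi.single_eq_of_ne hb]
      · intro h'; exact absurd h h'
    · have h2 : -(s i) ∈ A := (mem_sym.1 (hs i)).resolve_left h
      rw [sum_eq_single (-(s i))]
      · simp
      · intro b _ hb; simp [Pi.single_eq_of_ne hb]
      · intro h'; exact absurd h2 h'
  have h4 : (∑ i, ∑ x ∈ A, vec A (s i) x) % 2 = (j : ℤ) % 2 := by
    have h5 : ∀ i ∈ (univ : Finset (Fin j)), (∑ x ∈ A, vec A (s i) x) ≡ 1 [ZMOD 2] := by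
      intro i _
      exact Int.odd_iff.1 (h3 i)
    have h6 : (∑ i, ∑ x ∈ A, vec A (s i) x) ≡ ∑ i : Fin j, (1 : ℤ) [ZMOD 2] := Int.ModEq.sum h5
    rw [show ∑ i : Fin j, (1 : ℤ) = j by simp] at h6
    exact h6
  rw [h2] at h4
  obtain ⟨q, hq⟩ := hodd
  omega

/-- An element `x ≠ 0` has at most two representations as a sum of two elements of `A ∪ -A`. -/
lemma rep_sym_le (hA : IsTIndep t A) (ht : 4 ≤ t) {x : ZMod p} (hx : x ≠ 0) :
    rep (sym A) (sym A) x ≤ 2 := by
  unfold rep
  rcases ((sym A).filter fun a => x - a ∈ sym A).eq_empty_or_nonempty with he | ⟨s, hs⟩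
  · rw [he]; simp
  rw [mem_filter] at hs
  have hsub : (sym A).filter (fun a => x - a ∈ sym A) ⊆ {s, x - s} := by
    intro u hu
    rw [mem_filter] at hu
    rw [mem_insert, mem_singleton]
    have hz := vec_eq_zero hA ht ![s, x - s, -u, -(x - u)] (by
      intro i; fin_cases i
      · exact hs.1
      · exact hs.2
      · exact neg_mem_sym.2 hu.1
      · exact neg_mem_sym.2 hu.2) (by
        simp only [Fin.sum_univ_four, Matrix.cons_val_zero, Matrix.cons_val_one,
          Matrix.cons_val]
        ring)
    have hz' : ∀ y ∈ A, vec A s y + vec A (x - s) y = vec A u y + vec A (x - u) y := by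
      intro y hy
      have := hz y hy
      simp only [Fin.sum_univ_four, Matrix.cons_val_zero, Matrix.cons_val_one,
        Matrix.cons_val] at this
      rw [vec_neg hA (by omega) hu.1, vec_neg hA (by omega) hu.2] at this
      omega
    -- the value at the point of `A` belonging to `s`
    have hpos : ∀ w : ZMod p, w ∈ sym A → ∀ y ∈ A, (vec A w y = 1 → w = y) ∧
        (vec A w y = -1 → w = -y) ∧ (vec A w y = 0 ∨ vec A w y = 1 ∨ vec A w y = -1) := by
      intro w hw y hy
      unfold vec
      split_ifs with h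
      · by_cases hyw : y = w
        · subst hyw; simp
        · simp [Pi.single_eq_of_ne hyw]
      · by_cases hyw : y = -w
        · subst hyw; simp
        · simp [Pi.single_eq_of_ne hyw]
    rcases mem_sym.1 hs.1 with h | h
    · have e1 : vec A s s = 1 := by unfold vec; rw [if_pos h, Pi.single_eq_same]
      have e2 := hz' s h
      have e3 := hpos (x - s) hs.2 s h
      have e4 := hpos u hu.1 s h
      have e5 := hpos (x - u) hu.2 s h
      have e6 : vec A (x - s) s ≠ -1 := by
        intro h7
        have := e3.2.1 h7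
        apply hx
        rw [sub_eq_iff_eq_add] at this
        rw [this]; ring
      have e8 : vec A u s = 1 ∨ vec A (x - u) s = 1 := by
        rcases e3.2.2 with h7 | h7 | h7
        · rcases e4.2.2 with h8 | h8 | h8 <;> rcases e5.2.2 with h9 | h9 | h9 <;> omega
        · rcases e4.2.2 with h8 | h8 | h8 <;> rcases e5.2.2 with h9 | h9 | h9 <;> omega
        · exact absurd h7 e6
      rcases e8 with h9 | h9
      · left; exact e4.1 h9
      · right
        have := e5.1 h9
        rw [← this]; ring
    · have hsn : s ∉ A := by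
        intro h'
        exact neg_notMem hA (by omega) h' h
      have e1 : vec A s (-s) = -1 := by unfold vec; rw [if_neg hsn, Pi.single_eq_same]
      have e2 := hz' (-s) h
      have e3 := hpos (x - s) hs.2 (-s) h
      have e4 := hpos u hu.1 (-s) h
      have e5 := hpos (x - u) hu.2 (-s) h
      have e6 : vec A (x - s) (-s) ≠ 1 := by
        intro h7
        have := e3.1 h7
        apply hx
        rw [sub_eq_iff_eq_add] at this
        rw [this]; ring
      have e8 : vec A u (-s) = -1 ∨ vec A (x - u) (-s) = -1 := by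
        rcases e3.2.2 with h7 | h7 | h7
        · rcases e4.2.2 with h8 | h8 | h8 <;> rcases e5.2.2 with h9 | h9 | h9 <;> omega
        · exact absurd h7 e6
        · rcases e4.2.2 with h8 | h8 | h8 <;> rcases e5.2.2 with h9 | h9 | h9 <;> omega
      rcases e8 with h9 | h9
      · left
        have := e4.2.1 h9
        rw [this, neg_neg]
      · right
        have := e5.2.1 h9
        rw [neg_neg] at this
        rw [← this]; ring
  exact (card_le_card hsub).trans card_le_two

lemma rep_sym_zero : rep (sym A) (sym A) 0 = (sym A).card := by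
  unfold rep
  congr 1
  rw [filter_eq_self]
  intro a ha
  rw [zero_sub]; exact neg_mem_sym.2 ha

/-- `k² ≤ k + 2 n`, where `k = 2 |A|`. -/
lemma sq_card_le (hA : IsTIndep t A) (ht : 4 ≤ t) :
    (sym A).card * (sym A).card ≤ (sym A).card + 2 * p := by
  rw [← sum_rep, ← add_sum_erase univ _ (mem_univ (0 : ZMod p)), rep_sym_zero]
  apply Nat.add_le_add_left
  calc ∑ x ∈ univ.erase (0 : ZMod p), rep (sym A) (sym A) x
      ≤ ∑ x ∈ univ.erase (0 : ZMod p), 2 :=
        sum_le_sum fun x hx => rep_sym_le hA ht (ne_of_mem_erase hx)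
    _ ≤ 2 * p := by
        rw [sum_const, smul_eq_mul, mul_comm]
        apply Nat.mul_le_mul_left
        have := card_le_univ (univ.erase (0 : ZMod p))
        rwa [ZMod.card] at this

/-- The number of additive quadruples. -/
lemma c4_sym_le (hA : IsTIndep t A) (ht : 4 ≤ t) :
    c4 (ind (sym A)) 0 ≤ 3 * ((sym A).card : ℝ) ^ 2 := by
  unfold c4 c2 conv
  have h1 : ∀ x : ZMod p, (∑ y, ind (sym A) y * ind (sym A) (x - y)) =
      rep (sym A) (sym A) x := fun x => conv_ind _ _ x
  simp only [h1, zero_sub]
  have h2 : ∑ x, rep (sym A) (sym A) x * rep (sym A) (sym A) (-x) ≤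
      3 * (sym A).card ^ 2 := by
    rw [← add_sum_erase univ _ (mem_univ (0 : ZMod p)), neg_zero, rep_sym_zero]
    have h3 : ∑ x ∈ univ.erase (0 : ZMod p), rep (sym A) (sym A) x * rep (sym A) (sym A) (-x) ≤
        ∑ x ∈ univ.erase (0 : ZMod p), rep (sym A) (sym A) x * 2 := by
      apply sum_le_sum
      intro x hx
      apply Nat.mul_le_mul_left
      exact rep_sym_le hA ht (neg_ne_zero.2 (ne_of_mem_erase hx))
    have h4 : ∑ x ∈ univ.erase (0 : ZMod p), rep (sym A) (sym A) x ≤
        (sym A).card * (sym A).card := by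
      rw [← sum_rep]
      exact sum_le_sum_of_subset (erase_subset _ _)
    rw [← sum_mul] at h3
    nlinarith
  exact_mod_cast h2

/-- There are no five elements of `A ∪ -A` with sum zero. -/
lemma c5_sym (hA : IsTIndep t A) (ht : 5 ≤ t) : c5 (ind (sym A)) 0 = 0 := by
  have key : ∀ a b c d e : ZMod p, a + b + c + d + e = 0 →
      ind (sym A) a * ind (sym A) b * ind (sym A) c * ind (sym A) d * ind (sym A) e = 0 := by
    intro a b c d e h
    unfold ind
    by_cases ha : a ∈ sym A
    · by_cases hb : b ∈ sym A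
      · by_cases hc : c ∈ sym A
        · by_cases hd : d ∈ sym A
          · by_cases he : e ∈ sym A
            · exfalso
              refine no_odd hA ht (by decide) ![a, b, c, d, e] ?_ ?_
              · intro i; fin_cases i
                · exact ha
                · exact hb
                · exact hc
                · exact hd
                · exact he
              · rw [Fin.sum_univ_five]
                exact h
            · simp [he]
          · simp [hd]
        · simp [hc]
      · simp [hb]
    · simp [ha]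
  unfold c5 c3 c2 conv
  apply sum_eq_zero
  intro x _
  rw [sum_mul_sum]
  apply sum_eq_zero
  intro y _
  apply sum_eq_zero
  intro z _
  rw [sum_mul, sum_mul]
  apply sum_eq_zero
  intro w _
  have := key w (y - w) (x - y) z (0 - x - z) (by ring)
  linarith [this]

end Pool.Agent.Q39.TI
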