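import Pool.Agent.Q39.TI.Bohr
import Pool.Agent.Q39.TI.Sym

/-!
# The upper bound for primes
-/

set_option autoImplicit false
set_option linter.unusedSectionVars false

open Finset

namespace Pool.Agent.Q39.TI

section General

variable {p : ℕ} [NeZero p] {t : ℕ} {A : Finset (ZMod p)}

lemma conv_comm (f g : ZMod p → ℝ) (x : ZMod p) : conv f g x = conv g f x := by
  unfold conv
  rw [← Equiv.sum_comp (Equiv.subLeft x)]
  apply sum_congr rfl
  intro y _
  simp only [Equiv.subLeft_apply, sub_sub_cancel]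
  ring

/-- The second moment of the convolution of `A ∪ -A` with a set. -/
lemma sum_sq_conv_le (hA : IsTIndep t A) (ht : 4 ≤ t) (B : Finset (ZMod p)) :
    ∑ x, conv (ind (sym A)) (ind B) x ^ 2 ≤ (sym A).card * B.card + 2 * (B.card : ℝ) ^ 2 := by
  have heven : ∀ x, ind (sym A) (-x) = ind (sym A) x := by
    intro x; unfold ind; simp only [neg_mem_sym]
  have h1 : ∀ x, conv (ind (sym A)) (ind B) x ^ 2 =
      ∑ y, ∑ y', ind B y * ind B y' * (ind (sym A) (x - y) * ind (sym A) (x - y')) := by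
    intro x
    rw [conv_comm, sq]
    unfold conv
    rw [sum_mul_sum]
    apply sum_congr rfl
    intro y _
    apply sum_congr rfl
    intro y' _
    ring
  have h2 : ∀ y y' : ZMod p, ∑ x, ind (sym A) (x - y) * ind (sym A) (x - y') =
      rep (sym A) (sym A) (y' - y) := by
    intro y y'
    rw [← conv_ind]
    unfold conv
    rw [← Equiv.sum_comp (Equiv.addRight y)]
    apply sum_congr rfl
    intro z _
    simp only [Equiv.coe_addRight, add_sub_cancel_right]
    congr 1
    rw [← heven]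
    congr 1
    ring
  have h3 : ∀ y y' : ZMod p, (rep (sym A) (sym A) (y' - y) : ℝ) ≤
      2 + if y' = y then ((sym A).card : ℝ) else 0 := by
    intro y y'
    split_ifs with h
    · rw [h, sub_self, rep_sym_zero]; linarith
    · have := rep_sym_le hA ht (sub_ne_zero.2 h)
      have h4 : (rep (sym A) (sym A) (y' - y) : ℝ) ≤ 2 := by exact_mod_cast this
      linarith
  calc ∑ x, conv (ind (sym A)) (ind B) x ^ 2
      = ∑ y, ∑ y', ind B y * ind B y' * (rep (sym A) (sym A) (y' - y) : ℝ) := by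
        simp only [h1]
        rw [sum_comm]
        apply sum_congr rfl
        intro y _
        rw [sum_comm]
        apply sum_congr rfl
        intro y' _
        rw [← mul_sum, h2]
    _ ≤ ∑ y, ∑ y', ind B y * ind B y' * (2 + if y' = y then ((sym A).card : ℝ) else 0) := by
        apply sum_le_sum
        intro y _
        apply sum_le_sum
        intro y' _
        exact mul_le_mul_of_nonneg_left (h3 y y') (mul_nonneg (ind_nonneg _ _) (ind_nonneg _ _))
    _ = (sym A).card * B.card + 2 * (B.card : ℝ) ^ 2 := by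
        have h5 : ∀ y : ZMod p, ∑ y', ind B y * ind B y' * (2 + if y' = y then ((sym A).card : ℝ)
            else 0) = ind B y * (2 * B.card) + ind B y * (sym A).card := by
          intro y
          simp only [mul_add, sum_add_distrib]
          congr 1
          · simp only [mul_assoc, ← mul_sum]
            rw [← sum_mul, sum_ind]; ring
          · simp only [mul_ite, mul_zero, sum_ite_eq', mem_univ, if_true]
            unfold ind
            split_ifs <;> simp
        simp only [h5]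
        rw [sum_add_distrib, ← sum_mul, ← sum_mul, sum_ind]
        ring

lemma card_large_spectrum {S : Finset (ZMod p)} {ε C : ℝ} (hS : ∀ x, -x ∈ S ↔ x ∈ S)
    (h4 : c4 (ind S) 0 ≤ C * (S.card : ℝ) ^ 2) (hε : 0 ≤ ε) :
    ((univ.filter fun ξ => ε * S.card ≤ ‖hat (ind S) ξ‖).card : ℝ) * (ε * S.card) ^ 4 ≤
      p * (C * (S.card : ℝ) ^ 2) := by
  have heven : ∀ x, ind S (-x) = ind S x := by
    intro x; unfold ind; simp only [hS]
  calc ((univ.filter fun ξ => ε * S.card ≤ ‖hat (ind S) ξ‖).card : ℝ) * (ε * S.card) ^ 4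
      = ∑ ξ ∈ univ.filter (fun ξ => ε * S.card ≤ ‖hat (ind S) ξ‖), (ε * (S.card : ℝ)) ^ 4 := by
        rw [sum_const, nsmul_eq_mul]
    _ ≤ ∑ ξ ∈ univ.filter (fun ξ => ε * S.card ≤ ‖hat (ind S) ξ‖), ‖hat (ind S) ξ‖ ^ 4 := by
        apply sum_le_sum
        intro ξ hξ
        rw [mem_filter] at hξ
        have := hξ.2
        gcongr
    _ ≤ ∑ ξ, ‖hat (ind S) ξ‖ ^ 4 :=
        sum_le_sum_of_subset_of_nonneg (filter_subset _ _) fun _ _ _ => by positivity
    _ = p * c4 (ind S) 0 := sum_norm_pow_four heven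
    _ ≤ p * (C * (S.card : ℝ) ^ 2) := by gcongr

lemma c2_nonneg {f : ZMod p → ℝ} (hf : ∀ x, 0 ≤ f x) (x : ZMod p) : 0 ≤ c2 f x :=
  conv_nonneg hf hf x

lemma c5_mono {f g : ZMod p → ℝ} (hf : ∀ x, 0 ≤ f x) (h : ∀ x, f x ≤ g x) :
    c5 f 0 ≤ c5 g 0 := by
  have h2 : ∀ x, c2 f x ≤ c2 g x := conv_mono hf h hf h
  have h3 : ∀ x, c3 f x ≤ c3 g x := conv_mono (c2_nonneg hf) h2 hf h
  exact conv_mono (conv_nonneg (c2_nonneg hf) hf) h3 (c2_nonneg hf) h2 0

lemma c5_smul (a : ℝ) (f : ZMod p → ℝ) : c5 (fun x => a * f x) 0 = a ^ 5 * c5 f 0 := by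
  have h2 : c2 (fun x => a * f x) = fun x => a ^ 2 * c2 f x := by
    funext x
    unfold c2
    rw [conv_smul]; ring
  have h3 : c3 (fun x => a * f x) = fun x => a ^ 3 * c3 f x := by
    funext x
    unfold c3
    rw [h2, conv_smul]; ring
  unfold c5
  rw [h2, h3, conv_smul]; ring

end General

variable {p : ℕ} [Fact p.Prime]

lemma popular_real (A B : Finset (ZMod p)) {δ : ℝ} (hδ : 0 < δ) (hp : 2 ≤ δ * p)
    (hA : δ * p ≤ A.card) (hB : δ * p ≤ B.card) :
    min (p : ℝ) (A.card + B.card) - 3 * (δ * p) ≤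
      (univ.filter fun x => ⌊δ ^ 2 * p⌋₊ ≤ rep A B x).card := by
  have hp0 : (0 : ℝ) < p := by
    by_contra h
    push Not at h
    nlinarith
  set t := ⌊δ * p⌋₊ with ht
  set u := ⌊δ ^ 2 * p⌋₊ with hu
  have h1 : (t : ℝ) ≤ δ * p := Nat.floor_le (by positivity)
  have h2 : δ * p - 1 < t := Nat.sub_one_lt_floor _
  have h3 : (u : ℝ) ≤ δ ^ 2 * p := Nat.floor_le (by positivity)
  have htA : t ≤ A.card := by exact_mod_cast h1.trans hA
  have htB : t ≤ B.card := by exact_mod_cast h1.trans hB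
  have h4 := popular A B t u htA htB
  set X := (univ.filter fun x => u ≤ rep A B x).card with hX
  have h5 : (t : ℝ) * min (p : ℝ) (A.card + B.card - t) ≤ t * X + u * p := by
    have h6 : (((t * min p (A.card + B.card - t) : ℕ)) : ℝ) ≤ ((t * X + u * p : ℕ) : ℝ) := by
      exact_mod_cast h4
    rw [Nat.cast_mul, Nat.cast_min, Nat.cast_sub (by omega)] at h6
    push_cast at h6
    exact h6
  have ht0 : (0 : ℝ) < t := by linarith
  have h7 : (u : ℝ) * p ≤ t * (2 * (δ * p)) := by
    have e1 : (u : ℝ) * p ≤ δ ^ 2 * p * p := by gcongr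
    have e2 : δ * p / 2 ≤ t := by linarith
    have e3 : δ * p / 2 * (2 * (δ * p)) ≤ t * (2 * (δ * p)) := by gcongr
    nlinarith
  have h8 : (t : ℝ) * (min (p : ℝ) (A.card + B.card - t) - 2 * (δ * p)) ≤ t * X := by
    rw [mul_sub]; linarith
  have h9 := le_of_mul_le_mul_left h8 ht0
  have h10 : min (p : ℝ) (A.card + B.card) - t ≤ min (p : ℝ) (A.card + B.card - t) := by
    apply le_min
    · have := min_le_left (p : ℝ) (A.card + B.card)
      linarith
    · have := min_le_right (p : ℝ) (A.card + B.card)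
      linarith
  linarith

/-- A set of density more than `1 / 5` contains many solutions of `x₁ + ... + x₅ = 0`. -/
lemma c5_ge {P : Finset (ZMod p)} {γ δ : ℝ} (hγ : γ ≤ 1 / 20) (hδ : 0 < δ) (hδγ : 4 * δ ≤ γ)
    (hp : 2 ≤ δ ^ 2 * p) (hP : (1 / 5 + γ) * p ≤ P.card) :
    γ * δ ^ 6 / 8 * (p : ℝ) ^ 4 ≤ c5 (ind P) 0 := by
  have hp0 : (0 : ℝ) < p := by
    by_contra h
    push Not at h
    nlinarith [sq_nonneg δ]
  have hγ0 : 0 < γ := by linarith
  have hδ1 : δ ≤ 1 := by linarith
  have hp2 : 2 ≤ δ * p := by nlinarith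
  set u := ⌊δ ^ 2 * p⌋₊ with hu
  have hu1 : δ ^ 2 * p / 2 ≤ u := by
    have := Nat.sub_one_lt_floor (δ ^ 2 * p)
    rw [← hu] at this
    linarith
  set X₂ := univ.filter fun x => u ≤ rep P P x with hX₂
  set X₃ := univ.filter fun x => u ≤ rep X₂ P x with hX₃
  have hPδ : δ * p ≤ P.card := by nlinarith
  have hPp : (P.card : ℝ) ≤ p := by
    have := card_le_univ P
    rw [ZMod.card] at this
    exact_mod_cast this
  have h2 : min (p : ℝ) (P.card + P.card) - 3 * (δ * p) ≤ X₂.card :=
    popular_real P P hδ hp2 hPδ hPδ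
  have hX2 : δ * p ≤ X₂.card := by
    refine le_trans ?_ h2
    have : 4 * (δ * p) ≤ min (p : ℝ) (P.card + P.card) := by
      apply le_min <;> nlinarith
    linarith
  have h3 : min (p : ℝ) (X₂.card + P.card) - 3 * (δ * p) ≤ X₃.card :=
    popular_real X₂ P hδ hp2 hX2 hPδ
  have h4 : (1 + γ) * p ≤ (X₂.card : ℝ) + X₃.card := by
    rcases le_total (p : ℝ) (P.card + P.card) with h5 | h5
    · rw [min_eq_left h5] at h2
      rcases le_total (p : ℝ) (X₂.card + P.card) with h6 | h6
      · rw [min_eq_left h6] at h3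
        nlinarith
      · rw [min_eq_right h6] at h3
        nlinarith
    · rw [min_eq_right h5] at h2
      rcases le_total (p : ℝ) (X₂.card + P.card) with h6 | h6
      · rw [min_eq_left h6] at h3
        nlinarith
      · rw [min_eq_right h6] at h3
        nlinarith
  -- the number of `z ∈ X₃` with `-z ∈ X₂`
  have h5 : (X₂.card : ℝ) + X₃.card - p ≤ ∑ y, ind X₃ y * ind X₂ (0 - y) := by
    have e1 : ∑ y, ind X₃ y = X₃.card := sum_ind _
    have e2 : ∑ y, ind X₂ (0 - y) = X₂.card := by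
      rw [← sum_ind X₂]
      exact Equiv.sum_comp (Equiv.subLeft (0 : ZMod p)) (ind X₂)
    have e3 : ∑ y : ZMod p, (1 : ℝ) = p := by simp [ZMod.card]
    rw [← e1, ← e2, ← e3, ← sum_add_distrib, ← sum_sub_distrib]
    apply sum_le_sum
    intro y _
    unfold ind
    split_ifs <;> norm_num
  have h6 : ∀ x, (u : ℝ) * ind X₂ x ≤ c2 (ind P) x := by
    intro x
    unfold c2
    rw [conv_ind]
    unfold ind
    split_ifs with h
    · rw [hX₂, mem_filter] at h
      rw [mul_one]; exact_mod_cast h.2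
    · rw [mul_zero]; positivity
  have h7 : ∀ x, (u : ℝ) ^ 2 * ind X₃ x ≤ c3 (ind P) x := by
    intro x
    have e1 : (u : ℝ) * ind X₃ x ≤ rep X₂ P x := by
      unfold ind
      split_ifs with h
      · rw [hX₃, mem_filter] at h
        rw [mul_one]; exact_mod_cast h.2
      · rw [mul_zero]; positivity
    have e2 : conv (fun y => (u : ℝ) * ind X₂ y) (fun y => 1 * ind P y) x ≤ c3 (ind P) x := by
      unfold c3
      apply conv_mono
      · intro y; exact mul_nonneg (by positivity) (ind_nonneg _ _)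
      · exact h6
      · intro y; rw [one_mul]; exact ind_nonneg _ _
      · intro y; rw [one_mul]
    rw [conv_smul, conv_ind] at e2
    refine le_trans ?_ e2
    calc (u : ℝ) ^ 2 * ind X₃ x = u * (u * ind X₃ x) := by ring
      _ ≤ u * rep X₂ P x := by gcongr
      _ = u * 1 * rep X₂ P x := by ring
  have h8 : (u : ℝ) ^ 3 * ∑ y, ind X₃ y * ind X₂ (0 - y) ≤ c5 (ind P) 0 := by
    unfold c5
    have e2 : conv (fun y => (u : ℝ) ^ 2 * ind X₃ y) (fun y => u * ind X₂ y) 0 ≤
        conv (c3 (ind P)) (c2 (ind P)) 0 := by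
      apply conv_mono
      · intro y; exact mul_nonneg (by positivity) (ind_nonneg _ _)
      · exact h7
      · intro y; exact mul_nonneg (by positivity) (ind_nonneg _ _)
      · exact h6
    rw [conv_smul] at e2
    refine le_trans (le_of_eq ?_) e2
    unfold conv
    ring
  refine le_trans ?_ h8
  have h9 : γ * p ≤ ∑ y, ind X₃ y * ind X₂ (0 - y) := by
    refine le_trans ?_ h5
    linarith
  calc γ * δ ^ 6 / 8 * (p : ℝ) ^ 4 = (δ ^ 2 * p / 2) ^ 3 * (γ * p) := by ring
    _ ≤ (u : ℝ) ^ 3 * ∑ y, ind X₃ y * ind X₂ (0 - y) := by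
        gcongr

/-- The second moment argument. -/
lemma moment {S B : Finset (ZMod p)} {η : ℝ} (hη : 0 ≤ η) (hη1 : η ≤ 1)
    (h2 : ∑ x, conv (ind S) (ind B) x ^ 2 ≤ S.card * B.card + 2 * (B.card : ℝ) ^ 2) :
    (1 - η) ^ 2 * ((S.card : ℝ) * B.card) ^ 2 ≤
      ((univ.filter fun x => η * (S.card * B.card) / p ≤ conv (ind S) (ind B) x).card : ℝ) *
        (S.card * B.card + 2 * (B.card : ℝ) ^ 2) := by
  have hp0 : (0 : ℝ) < p := by exact_mod_cast (Fact.out : p.Prime).pos
  set P := univ.filter fun x => η * (S.card * B.card) / p ≤ conv (ind S) (ind B) x with hP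
  set H := conv (ind S) (ind B) with hH
  have h1 : ∑ x, H x = S.card * B.card := by
    rw [hH, sum_conv, sum_ind, sum_ind]
  have h3 : ∑ x ∈ univ.filter (fun x => ¬ η * (S.card * B.card) / p ≤ H x), H x ≤
      η * (S.card * B.card) := by
    calc ∑ x ∈ univ.filter (fun x => ¬ η * (S.card * B.card) / p ≤ H x), H x
        ≤ ∑ x ∈ univ.filter (fun x => ¬ η * (S.card * B.card) / p ≤ H x),
            η * (S.card * B.card) / p := by
          apply sum_le_sum
          intro x hx
          rw [mem_filter] at hx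
          exact (not_le.1 hx.2).le
      _ ≤ ∑ x : ZMod p, η * (S.card * B.card) / p :=
          sum_le_sum_of_subset_of_nonneg (filter_subset _ _) fun _ _ _ => by positivity
      _ = η * (S.card * B.card) := by
          rw [sum_const, card_univ, ZMod.card, nsmul_eq_mul]
          field_simp
  have h4 : (1 - η) * (S.card * B.card) ≤ ∑ x ∈ P, H x := by
    have := sum_filter_add_sum_filter_not univ (fun x => η * (S.card * B.card) / p ≤ H x) H
    rw [h1] at this
    rw [hP]
    linarith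
  have h5 : (∑ x ∈ P, H x) ^ 2 ≤ P.card * ∑ x ∈ P, H x ^ 2 := sq_sum_le_card_mul_sum_sq
  have h6 : ∑ x ∈ P, H x ^ 2 ≤ S.card * B.card + 2 * (B.card : ℝ) ^ 2 :=
    (sum_le_sum_of_subset_of_nonneg (subset_univ _) fun _ _ _ => by positivity).trans h2
  calc (1 - η) ^ 2 * ((S.card : ℝ) * B.card) ^ 2 = ((1 - η) * (S.card * B.card)) ^ 2 := by ring
    _ ≤ (∑ x ∈ P, H x) ^ 2 := by
        have : 0 ≤ (1 - η) * ((S.card : ℝ) * B.card) :=
          mul_nonneg (by linarith) (by positivity)
        gcongr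
    _ ≤ P.card * ∑ x ∈ P, H x ^ 2 := h5
    _ ≤ P.card * (S.card * B.card + 2 * (B.card : ℝ) ^ 2) := by gcongr

end Pool.Agent.Q39.TI
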