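import Pool.Agent.Q39.TI.Upper

/-!
# The upper bound for primes: conclusion
-/

set_option autoImplicit false
set_option linter.unusedSectionVars false

open Finset

namespace Pool.Agent.Q39.TI

/-- For large primes `p` a `5`-independent set in `ℤ/p` has at most `(1 / √10 + o(1)) √p`
elements. -/
theorem upper_sq {κ₀ : ℝ} (hκ₀ : 2 / 5 < κ₀) : ∃ p₀ : ℕ, ∀ p : ℕ, p₀ ≤ p → p.Prime →
    ∀ A : Finset (ZMod p), IsTIndep 5 A → (2 * (A.card : ℝ)) ^ 2 < κ₀ * p := by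
  classical
  -- the constants
  obtain ⟨κ, hκ, hκ1, hκ2⟩ : ∃ κ : ℝ, 2 / 5 < κ ∧ κ ≤ κ₀ ∧ κ ≤ 1 :=
    ⟨min κ₀ 1, lt_min hκ₀ (by norm_num), min_le_left _ _, min_le_right _ _⟩
  obtain ⟨η, hη0, hη⟩ : ∃ η : ℝ, 0 < η ∧ 12 * η = κ - 2 / 5 :=
    ⟨(κ - 2 / 5) / 12, by linarith, by ring⟩
  have hη1 : η ≤ 1 / 20 := by linarith
  set δ := η / 4 with hδ
  have hδ0 : 0 < δ := by rw [hδ]; positivity
  obtain ⟨ε, hε0, hε⟩ : ∃ ε : ℝ, 0 < ε ∧ 500 * ε = η ^ 6 * δ ^ 6 :=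
    ⟨η ^ 6 * δ ^ 6 / 500, by positivity, by ring⟩
  obtain ⟨M, hM⟩ : ∃ M : ℕ, 7 / ε ≤ (M : ℝ) := exists_nat_ge _
  obtain ⟨G, hG⟩ : ∃ G : ℕ, 8 / ε ^ 4 ≤ (G : ℝ) := exists_nat_ge _
  have hM0 : (0 : ℝ) < M := lt_of_lt_of_le (by positivity) hM
  have hM0' : 0 < M := by exact_mod_cast hM0
  obtain ⟨p₀, hp₀⟩ : ∃ p₀ : ℕ,
      max (2 / δ ^ 2) ((2 * (M : ℝ) ^ G / (6 * η)) ^ 2) + 1 ≤ (p₀ : ℝ) := exists_nat_ge _
  refine ⟨p₀, ?_⟩
  intro p hp hprime A hA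
  have : Fact p.Prime := ⟨hprime⟩
  by_contra hcon
  push Not at hcon
  have hpp : (p₀ : ℝ) ≤ p := by exact_mod_cast hp
  have hp1 : 2 / δ ^ 2 ≤ p := by
    have := le_max_left (2 / δ ^ 2) ((2 * (M : ℝ) ^ G / (6 * η)) ^ 2)
    linarith
  have hp2 : (2 * (M : ℝ) ^ G / (6 * η)) ^ 2 < p := by
    have := le_max_right (2 / δ ^ 2) ((2 * (M : ℝ) ^ G / (6 * η)) ^ 2)
    linarith
  have hp0 : (0 : ℝ) < p := by exact_mod_cast hprime.pos
  have hp1' : (1 : ℝ) ≤ p := by exact_mod_cast hprime.one_lt.le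
  have hpδ : 2 ≤ δ ^ 2 * p := by
    rw [div_le_iff₀ (by positivity)] at hp1
    linarith
  -- the symmetric set
  set S := sym A with hS
  have hSA : (S.card : ℝ) = 2 * A.card := by
    rw [hS, card_sym hA (by norm_num)]; push_cast; ring
  set k : ℝ := (S.card : ℝ) with hk
  have hk2 : κ * p ≤ k ^ 2 := by
    rw [hSA]
    refine le_trans ?_ hcon
    gcongr
  have hk0 : 0 < k := by
    have h0 : 0 ≤ k := by rw [hk]; positivity
    rcases h0.lt_or_eq with h | h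
    · exact h
    · rw [← h] at hk2
      nlinarith
  have hneg : ∀ x, -x ∈ S ↔ x ∈ S := fun x => neg_mem_sym
  have h4 : c4 (ind S) 0 ≤ 3 * k ^ 2 := c4_sym_le hA (by norm_num)
  have h5 : c5 (ind S) 0 = 0 := c5_sym hA le_rfl
  -- the large spectrum
  set Γ := univ.filter fun ξ => ε * S.card ≤ ‖hat (ind S) ξ‖ with hΓ
  have hΓc : Γ.card ≤ G := by
    have h6 := card_large_spectrum hneg h4 hε0.le
    rw [← hΓ, ← hk] at h6
    have h7 : (Γ.card : ℝ) * ε ^ 4 * k ^ 2 ≤ 3 * p := by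
      have e1 : (Γ.card : ℝ) * ε ^ 4 * k ^ 2 * k ^ 2 ≤ 3 * p * k ^ 2 := by nlinarith
      exact le_of_mul_le_mul_right e1 (by positivity)
    have h8 : (Γ.card : ℝ) * ε ^ 4 * (κ * p) ≤ 3 * p := by
      refine le_trans ?_ h7
      gcongr
    have h9 : (Γ.card : ℝ) * ε ^ 4 * κ ≤ 3 := by
      have e1 : (Γ.card : ℝ) * ε ^ 4 * κ * p ≤ 3 * p := by linarith
      exact le_of_mul_le_mul_right e1 hp0
    have h10 : (Γ.card : ℝ) * ε ^ 4 ≤ 8 := by
      have : 0 ≤ (Γ.card : ℝ) * ε ^ 4 := by positivity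
      nlinarith
    have h11 : (Γ.card : ℝ) ≤ 8 / ε ^ 4 := by
      rw [le_div_iff₀ (by positivity)]; exact h10
    exact_mod_cast h11.trans hG
  -- the Bohr set
  set B := bohr Γ ε with hB
  have hBc : (p : ℝ) ≤ B.card * (M : ℝ) ^ G := by
    have h6 : 2 * Real.pi / M ≤ ε := by
      rw [div_le_iff₀ hM0]
      rw [div_le_iff₀ hε0] at hM
      have := Real.pi_lt_d2
      linarith
    have h7 := card_bohr Γ hM0' h6
    have h8 : p ≤ B.card * M ^ G :=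
      h7.trans (Nat.mul_le_mul_left _ (Nat.pow_le_pow_right hM0' hΓc))
    exact_mod_cast h8
  have hB0 : (0 : ℝ) < B.card := by
    have h0 : (0 : ℝ) ≤ B.card := by positivity
    rcases h0.lt_or_eq with h | h
    · exact h
    · rw [← h] at hBc
      linarith
  have hBρ : ∀ ξ, ε * S.card ≤ ‖hat (ind S) ξ‖ → ∀ b ∈ B,
      ‖(ZMod.stdAddChar (ξ * b) : ℂ) - 1‖ ≤ ε := by
    intro ξ hξ b hb
    rw [hB, bohr, mem_filter] at hb
    apply hb.2
    rw [hΓ, mem_filter]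
    exact ⟨mem_univ _, hξ⟩
  have hT := c5_le hε0.le hε0.le hneg h5 hBρ
  rw [← hk] at hT
  set b : ℝ := (B.card : ℝ) with hb
  have hT' : c5 (conv (ind S) (ind B)) 0 ≤ 21 * ε * k ^ 3 * b ^ 5 := by
    refine hT.trans ?_
    calc (2 * ε + 5 * ε) * k * b ^ 5 * c4 (ind S) 0 ≤ (2 * ε + 5 * ε) * k * b ^ 5 * (3 * k ^ 2) := by
          gcongr
      _ = 21 * ε * k ^ 3 * b ^ 5 := by ring
  -- the level set
  set P := univ.filter fun x => η * (k * b) / p ≤ conv (ind S) (ind B) x with hP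
  have hPc : (P.card : ℝ) < (1 / 5 + η) * p := by
    by_contra h6
    push Not at h6
    have h7 := c5_ge (γ := η) (δ := δ) hη1 hδ0 (by rw [hδ]; linarith) hpδ h6
    have h8 : c5 (fun x => η * (k * b) / p * ind P x) 0 ≤ c5 (conv (ind S) (ind B)) 0 := by
      apply c5_mono
      · intro x
        exact mul_nonneg (by positivity) (ind_nonneg _ _)
      · intro x
        unfold ind
        split_ifs with h
        · rw [hP, mem_filter] at h
          rw [mul_one]; exact h.2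
        · rw [mul_zero]
          exact conv_nonneg (ind_nonneg _) (ind_nonneg _) x
    rw [c5_smul] at h8
    have h9 : (η * (k * b) / p) ^ 5 * (η * δ ^ 6 / 8 * (p : ℝ) ^ 4) ≤ 21 * ε * k ^ 3 * b ^ 5 := by
      refine le_trans ?_ (h8.trans hT')
      gcongr
    have h10 : (η * (k * b) / p) ^ 5 * (η * δ ^ 6 / 8 * (p : ℝ) ^ 4) =
        (η ^ 6 * δ ^ 6 / 8 * k ^ 2) / p * (k ^ 3 * b ^ 5) := by
      field_simp
    rw [h10] at h9
    have h11 : (η ^ 6 * δ ^ 6 / 8 * k ^ 2) / p ≤ 21 * ε := by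
      have e1 : (η ^ 6 * δ ^ 6 / 8 * k ^ 2) / p * (k ^ 3 * b ^ 5) ≤ 21 * ε * (k ^ 3 * b ^ 5) := by
        linarith
      exact le_of_mul_le_mul_right e1 (by positivity)
    rw [div_le_iff₀ hp0, ← hε] at h11
    have h12 : 500 * ε / 8 * (2 / 5 * p) ≤ 500 * ε / 8 * k ^ 2 := by
      have : 2 / 5 * (p : ℝ) ≤ k ^ 2 := by nlinarith
      gcongr
    nlinarith [mul_pos hε0 hp0]
  -- the second moment
  have hm := moment (S := S) (B := B) hη0.le (by linarith) (sum_sq_conv_le hA (by norm_num) B)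
  rw [← hk, ← hb, ← hP] at hm
  have hm2 : (1 - η) ^ 2 * k ^ 2 * b ≤ (1 / 5 + η) * p * (k + 2 * b) := by
    have e1 : (1 - η) ^ 2 * k ^ 2 * b * b ≤ (1 / 5 + η) * p * (k + 2 * b) * b := by
      calc (1 - η) ^ 2 * k ^ 2 * b * b = (1 - η) ^ 2 * (k * b) ^ 2 := by ring
        _ ≤ P.card * (k * b + 2 * b ^ 2) := hm
        _ ≤ (1 / 5 + η) * p * (k * b + 2 * b ^ 2) := by gcongr
        _ = (1 / 5 + η) * p * (k + 2 * b) * b := by ring
    exact le_of_mul_le_mul_right e1 hB0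
  have hm3 : (1 - η) ^ 2 * κ * b ≤ (1 / 5 + η) * (k + 2 * b) := by
    have e1 : (1 - η) ^ 2 * κ * b * p ≤ (1 / 5 + η) * (k + 2 * b) * p := by
      calc (1 - η) ^ 2 * κ * b * p = (1 - η) ^ 2 * (κ * p) * b := by ring
        _ ≤ (1 - η) ^ 2 * k ^ 2 * b := by gcongr
        _ ≤ (1 / 5 + η) * p * (k + 2 * b) := hm2
        _ = (1 / 5 + η) * (k + 2 * b) * p := by ring
    exact le_of_mul_le_mul_right e1 hp0
  -- `k` is small compared with `b`
  have hkp : k ^ 2 ≤ 4 * p := by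
    have h6 := sq_card_le hA (by norm_num : 4 ≤ 5)
    have h7 : k * k ≤ k + 2 * p := by
      rw [hk, hS]; exact_mod_cast h6
    by_contra h8
    push Not at h8
    have h9 : k ^ 2 / 2 < k := by nlinarith
    have h10 : k < 2 := by nlinarith
    nlinarith
  have hkb : k < 6 * η * b := by
    have h6 : (2 * (M : ℝ) ^ G) ^ 2 < (6 * η) ^ 2 * p := by
      rw [div_pow, div_lt_iff₀ (by positivity)] at hp2
      linarith
    have h7 : k ^ 2 < (6 * η * b) ^ 2 := by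
      have e1 : (p : ℝ) ^ 2 ≤ b ^ 2 * ((M : ℝ) ^ G) ^ 2 := by
        have : (p : ℝ) ^ 2 ≤ (b * (M : ℝ) ^ G) ^ 2 := by gcongr
        rwa [mul_pow] at this
      have e2 : (p : ℝ) ^ 2 * 4 < (6 * η * b) ^ 2 * p := by
        calc (p : ℝ) ^ 2 * 4 ≤ b ^ 2 * ((M : ℝ) ^ G) ^ 2 * 4 := by linarith
          _ = b ^ 2 * (2 * (M : ℝ) ^ G) ^ 2 := by ring
          _ < b ^ 2 * ((6 * η) ^ 2 * p) := by gcongr
          _ = (6 * η * b) ^ 2 * p := by ring
      have e3 : (p : ℝ) * 4 < (6 * η * b) ^ 2 := by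
        have : (p : ℝ) * 4 * p < (6 * η * b) ^ 2 * p := by linarith
        exact lt_of_mul_lt_mul_right this hp0.le
      linarith
    exact lt_of_pow_lt_pow_left₀ 2 (by positivity) h7
  -- the contradiction
  have hf1 : κ - 2 * η ≤ (1 - η) ^ 2 * κ := by
    have e1 : 0 ≤ η * (1 - κ) := mul_nonneg hη0.le (by linarith)
    have e2 : 0 ≤ η ^ 2 * κ := mul_nonneg (sq_nonneg η) (by linarith)
    have e3 : (1 - η) ^ 2 * κ = κ - 2 * η + 2 * (η * (1 - κ)) + η ^ 2 * κ := by ring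
    rw [e3]
    linarith
  have hf2 : (κ - 2 * η) * b ≤ (1 / 5 + η) * (k + 2 * b) :=
    le_trans (by gcongr) hm3
  have hf3 : (1 / 5 + η) * (k + 2 * b) ≤ 1 / 4 * k + (1 / 5 + η) * (2 * b) := by
    nlinarith
  nlinarith

/-- For every `c > 1 / √10` and all large primes `p`, a `5`-independent set in `ℤ/p` has at most
`c √p` elements. -/
theorem upper {c : ℝ} (hc : 1 / √10 < c) : ∃ p₀ : ℕ, ∀ p : ℕ, p₀ ≤ p → p.Prime →
    ∀ A : Finset (ZMod p), IsTIndep 5 A → (A.card : ℝ) ≤ c * √p := by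
  have h10 : (0 : ℝ) < √10 := Real.sqrt_pos.2 (by norm_num)
  have hc0 : 0 < c := lt_trans (by positivity) hc
  have h1 : 2 / 5 < 4 * c ^ 2 := by
    have h2 : (1 / √10) ^ 2 < c ^ 2 := by gcongr
    rw [div_pow, Real.sq_sqrt (by norm_num)] at h2
    linarith
  obtain ⟨p₀, h⟩ := upper_sq h1
  refine ⟨p₀, fun p hp hprime A hA => ?_⟩
  have h2 := h p hp hprime A hA
  have h3 : (A.card : ℝ) ^ 2 ≤ (c * √p) ^ 2 := by
    rw [mul_pow, Real.sq_sqrt (by positivity)]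
    linarith
  exact le_of_sq_le_sq h3 (by positivity)
where
  le_of_sq_le_sq {a b : ℝ} (h : a ^ 2 ≤ b ^ 2) (hb : 0 ≤ b) : a ≤ b := by
    exact abs_le_of_sq_le_sq' h hb |>.2

end Pool.Agent.Q39.TI
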